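import Pool.Agent.W2helper41.R.Two

/-!
# Twists of rank one: the regulators over the number fields in the infinite extension
-/

set_option autoImplicit false
set_option linter.unusedSectionVars false
set_option linter.unusedVariables false

open NumberField IsDedekindDomain Finset WeierstrassCurve

namespace Pool.Agent.W2helper41.R

open Pool.Agent.Y682 (wc MP gc gc_isT)
open Pool.Agent.TH841.NF.D (Sha)
open Pool.Agent.W2helper41.X (Ine Spl mat sq_seven)
open Pool.Agent.Y682.XD (mq RR)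
open Pool.Agent.Y700 (VR)
open Pool.Agent.W2helper41.M (Lay Lay_le Lay_odd Om mqN)
open Pool.Agent.W2helper41.Q (OmC Adm)

open scoped Classical

/-- the half split primes -/
def Half (a : ℕ) : Prop := a.Prime ∧ ((a % 8 = 5 ∧ (a % 7 = 1 ∨ a % 7 = 2 ∨ a % 7 = 4)) ∨
  (a % 8 = 1 ∧ (a % 7 = 3 ∨ a % 7 = 5 ∨ a % 7 = 6)))

lemma two_iff {l : ℕ} (hl : l.Prime) (h4 : l % 4 = 1) : IsSquare (2 : ZMod l) ↔ l % 8 = 1 := by
  have hf : Fact l.Prime := ⟨hl⟩
  rw [ZMod.exists_sq_eq_two_iff (by rintro rfl; omega)]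
  omega

lemma seven_iff {l : ℕ} (hl : l.Prime) (h4 : l % 4 = 1) (h7 : l ≠ 7) :
    IsSquare (-7 : ZMod l) ↔ (l % 7 = 1 ∨ l % 7 = 2 ∨ l % 7 = 4) := by
  have hf : Fact l.Prime := ⟨hl⟩
  exact sq_seven l h4 h7

lemma one_of {T : Finset ℕ} (hT : ∀ q ∈ T, Ine q) {a : ℕ} (ha : Half a) :
    a ∉ T ∧ One (insert a T) := by
  have haT : a ∉ T := by
    intro h
    have h1 := hT a h
    obtain ⟨-, h2, h3⟩ := h1
    rcases ha.2 with h4 | h4 <;> omega
  have ha4 : a % 4 = 1 := by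
    rcases ha.2 with h4 | h4 <;> omega
  have ha7 : a ≠ 7 := by
    rintro rfl
    omega
  have hok : Ok (insert a T) := by
    intro l hl
    rcases mem_insert.1 hl with rfl | hl
    · exact ⟨ha.1, ha4, ha7⟩
    · obtain ⟨h1, h2, h3⟩ := hT l hl
      exact ⟨h1, by omega, by rintro rfl; omega⟩
  refine ⟨haT, hok, ?_⟩
  have hA : ∀ l ∈ T, ¬ IsSquare (-7 : ZMod l) := by
    intro l hl h
    obtain ⟨h1, h2, h3⟩ := hT l hl
    rw [seven_iff h1 (by omega) (by rintro rfl; omega)] at h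
    omega
  have hB : ∀ l ∈ T, ¬ IsSquare (2 : ZMod l) := by
    intro l hl h
    obtain ⟨h1, h2, h3⟩ := hT l hl
    rw [two_iff h1 (by omega)] at h
    omega
  have hA0 : T.filter (fun l => IsSquare (-7 : ZMod l)) = ∅ :=
    filter_eq_empty_iff.2 fun l hl => hA l hl
  have hB0 : T.filter (fun l => IsSquare (2 : ZMod l)) = ∅ :=
    filter_eq_empty_iff.2 fun l hl => hB l hl
  unfold RA RB
  rw [filter_insert, filter_insert, hA0, hB0]
  rcases ha.2 with ⟨h5, h7⟩ | ⟨h5, h7⟩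
  · rw [if_pos ((seven_iff ha.1 ha4 ha7).2 h7), if_neg (fun h => by
      rw [two_iff ha.1 ha4] at h
      omega)]
    rfl
  · rw [if_neg (fun h => by
      rw [seven_iff ha.1 ha4 ha7] at h
      omega), if_pos ((two_iff ha.1 ha4).2 h5)]
    rfl

lemma gc_fg {k : Type} [Field k] [NumberField k] {D : ℤ} (hD : D ≠ 0) :
    Module.Finite ℤ (MP (gc (13 * D) (128 * D ^ 2) k)) := by
  have hT := gc_isT (A := 13 * D) (B := 128 * D ^ 2) (mul_ne_zero (by norm_num) (pow_ne_zero 2 hD))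
    (by
      have h1 : (13 * D) ^ 2 - 4 * (128 * D ^ 2) = -343 * D ^ 2 := by ring
      rw [h1]
      exact mul_ne_zero (by norm_num) (pow_ne_zero 2 hD)) k
  exact Pool.Agent.Y682.fg_MP hT

lemma inf_iff {k : Type} [Field k] [NumberField k] {D : ℤ} (hD : D ≠ 0) :
    Infinite (gc (13 * D) (128 * D ^ 2) k).toAffine.Point ↔
      1 ≤ Module.finrank ℤ (MP (gc (13 * D) (128 * D ^ 2) k)) := by
  have hfg := gc_fg (k := k) hD
  constructor
  · intro hinf
    by_contra hcon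
    have h0 : Module.finrank ℤ (MP (gc (13 * D) (128 * D ^ 2) k)) = 0 := by omega
    rw [Module.finrank_eq_zero_iff_isTorsion] at h0
    have h1 : Finite (MP (gc (13 * D) (128 * D ^ 2) k)) := Module.finite_of_fg_torsion _ h0
    exact hinf.not_finite h1
  · intro h1
    by_contra hcon
    rw [not_infinite_iff_finite] at hcon
    have hcon' : Finite (MP (gc (13 * D) (128 * D ^ 2) k)) := hcon
    have h0 : Module.finrank ℤ (MP (gc (13 * D) (128 * D ^ 2) k)) = 0 := by
      rw [Module.finrank_eq_zero_iff_isTorsion]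
      intro x
      refine ⟨⟨(addOrderOf x : ℤ), mem_nonZeroDivisors_of_ne_zero ?_⟩, ?_⟩
      · exact_mod_cast (addOrderOf_pos x).ne'
      · show (addOrderOf x : ℤ) • x = 0
        rw [natCast_zsmul]
        exact addOrderOf_nsmul_eq_zero x
    omega

/-- the twists of the half split primes -/
theorem bnd_half {T : Finset ℕ} (hT : ∀ q ∈ T, Ine q) {a : ℕ} (ha : Half a)
    (hinf : Infinite (gc (13 * ((a * ∏ q ∈ T, q : ℕ) : ℤ))
      (128 * ((a * ∏ q ∈ T, q : ℕ) : ℤ) ^ 2) ℚ).toAffine.Point) :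
    Module.finrank ℤ (MP (gc (13 * ((a * ∏ q ∈ T, q : ℕ) : ℤ))
      (128 * ((a * ∏ q ∈ T, q : ℕ) : ℤ) ^ 2) ℚ)) = 1 ∧
    BndS 2 0 (gc (13 * ((a * ∏ q ∈ T, q : ℕ) : ℤ)) (128 * ((a * ∏ q ∈ T, q : ℕ) : ℤ) ^ 2) ℚ) := by
  obtain ⟨haT, hone⟩ := one_of hT ha
  have h0 : ((a * ∏ q ∈ T, q : ℕ) : ℤ) ≠ 0 := by
    have : a * ∏ q ∈ T, q ≠ 0 := Nat.mul_ne_zero ha.1.ne_zero
      (prod_ne_zero_iff.2 fun q hq => (hT q hq).1.ne_zero)
    exact_mod_cast this
  rw [inf_iff h0] at hinf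
  have e : a * ∏ q ∈ T, q = ∏ q ∈ insert a T, q := by rw [prod_insert haT]
  rw [e] at hinf ⊢
  exact one_case hone hinf

lemma Om_le_OmC {a : ℕ} (ha : Adm a) : Om a ∅ ≤ OmC Adm := by
  unfold Om
  rw [IntermediateField.adjoin_le_iff]
  rintro z (hz | ⟨q, hq, -, hz⟩ | hz)
  · exact IntermediateField.subset_adjoin ℚ _ (Or.inl ⟨a, ha, hz⟩)
  · refine IntermediateField.subset_adjoin ℚ _ (Or.inl ⟨q, ⟨hq.1, ?_, Or.inl hq⟩, hz⟩)
    have := hq.2.1
    omega
  · exact IntermediateField.subset_adjoin ℚ _ (Or.inr hz)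

lemma half_adm {a : ℕ} (ha : Half a) (h9 : a % 9 = 2 ∨ a % 9 = 4 ∨ a % 9 = 5 ∨ a % 9 = 7) :
    Adm a := ⟨ha.1, by rcases ha.2 with h4 | h4 <;> omega, Or.inr h9⟩

lemma ine_adm {q : ℕ} (hq : Ine q) : Adm q := ⟨hq.1, by have := hq.2.1; omega, Or.inl hq⟩

/-- **(5)** -/
theorem half_main {a : ℕ} (ha : Half a) (h9 : a % 9 = 2 ∨ a % 9 = 4 ∨ a % 9 = 5 ∨ a % 9 = 7)
    (F : IntermediateField ℚ ℂ) [NumberField F] (hF : F ≤ Om a ∅)
    (hyp : ∀ T : Finset ℕ, (∀ q ∈ T, Ine q) → (∃ z ∈ F, z ^ 2 = ((a * ∏ q ∈ T, q : ℕ) : ℂ)) →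
      Infinite (gc (13 * ((a * ∏ q ∈ T, q : ℕ) : ℤ))
        (128 * ((a * ∏ q ∈ T, q : ℕ) : ℤ) ^ 2) ℚ).toAffine.Point) :
    ∃ m, BndS 2 m (gc 13 128 F) := by
  obtain ⟨A, n, hA, hFA⟩ := Pool.Agent.W2helper41.M.le_Om F hF
  obtain ⟨S, hS⟩ : ∃ S, S = (insert a A).map (Nat.castEmbedding (R := ℤ)) := ⟨_, rfl⟩
  have hmq : mqN (insert a A) = mq S := by rw [hS]; exact Pool.Agent.W2helper41.Y.mq_nat _
  have hG := comp_nf S n
  have hGo : mq S ⊔ Lay (n + 1) ≤ OmC Adm := by
    rw [← hmq]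
    exact (mq_le_Om hA n).trans (Om_le_OmC (half_adm ha h9))
  rw [hmq] at hFA
  refine bnd_F n S ?_ (mq S ⊔ Lay (n + 1)) F rfl (abl_omega _ hGo) hFA ?_
  · intro d hd
    rw [hS] at hd
    obtain ⟨k, hk, rfl⟩ := mem_map.1 hd
    rcases mem_insert.1 hk with rfl | hk
    · exact adm_gd (half_adm ha h9)
    · exact adm_gd (ine_adm (hA k hk).1)
  · intro B hB hz
    rw [hS] at hB
    obtain ⟨B', hB', rfl⟩ := subset_map_iff.1 hB
    have e : ∏ d ∈ B'.map (Nat.castEmbedding (R := ℤ)), d = ((∏ q ∈ B', q : ℕ) : ℤ) := by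
      rw [prod_map, Nat.cast_prod]
      rfl
    rw [e] at hz ⊢
    by_cases haB : a ∈ B'
    · have hT : ∀ q ∈ B'.erase a, Ine q := by
        intro q hq
        obtain ⟨h1, h2⟩ := mem_erase.1 hq
        exact (hA q ((mem_insert.1 (hB' h2)).resolve_left h1)).1
      have e2 : ∏ q ∈ B', q = a * ∏ q ∈ B'.erase a, q := (mul_prod_erase B' _ haB).symm
      rw [e2] at hz ⊢
      refine ⟨0, (bnd_half hT ha (hyp _ hT ?_)).2⟩
      obtain ⟨z, hz1, hz2⟩ := hz
      exact ⟨z, hz1, by rw [hz2, Int.cast_natCast]⟩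
    · have hT : ∀ q ∈ B', Ine q := by
        intro q hq
        exact (hA q ((mem_insert.1 (hB' hq)).resolve_left fun h => haB (h ▸ hq))).1
      exact ⟨0, bnd_reg (Pool.Agent.W2helper41.Y.reg_inert hT)⟩

/-! ## The explicit points -/

lemma ine_five : Ine 5 := ⟨by norm_num, by norm_num, by norm_num⟩

lemma half_29 : Half 29 := ⟨by norm_num, by norm_num⟩

lemma inf_of {D : ℕ} (hD : D ≠ 0) {x y : ℚ}
    (he : y ^ 2 = x ^ 3 + 13 * D * x ^ 2 + 128 * D ^ 2 * x)
    (hx : ¬ IsSquare x) (hx2 : ¬ IsSquare (2 * x)) :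
    Infinite (gc (13 * ((D : ℕ) : ℤ)) (128 * ((D : ℕ) : ℤ) ^ 2) ℚ).toAffine.Point := by
  have hD0 : ((D : ℕ) : ℤ) ≠ 0 := by exact_mod_cast hD
  have hD1 : ((D : ℕ) : ℚ) ≠ 0 := by exact_mod_cast hD
  rw [inf_iff hD0]
  have h1 := rk_pos (K := ℚ) (by rw [Module.finrank_self]; exact odd_one) hD1 he hx hx2
  rw [ED_wc, wc_gc] at h1
  exact h1

lemma inf_29 : Infinite (gc (13 * ((29 : ℕ) : ℤ)) (128 * ((29 : ℕ) : ℤ) ^ 2) ℚ).toAffine.Point := by
  refine inf_of (x := 4176) (y := 282576) (by norm_num) (by norm_num) ?_ ?_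
  · norm_num
  · norm_num

lemma inf_145 :
    Infinite (gc (13 * ((145 : ℕ) : ℤ)) (128 * ((145 : ℕ) : ℤ) ^ 2) ℚ).toAffine.Point := by
  refine inf_of (x := 261 / 4) (y := 108489 / 8) (by norm_num) (by norm_num) ?_ ?_
  · norm_num
  · norm_num

/-- the field of the example -/
noncomputable def OmX : IntermediateField ℚ ℂ := IntermediateField.adjoin ℚ
  ({z : ℂ | z ^ 2 = 5 ∨ z ^ 2 = 29} ∪ {z : ℂ | ∃ (n : ℕ) (ζ : ℂ), ζ ^ 3 ^ n = 1 ∧ z = ζ + ζ⁻¹})

/-- the class of the primes `5`, `29` -/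
def CX (q : ℕ) : Prop := q = 5 ∨ q = 29

lemma OmX_eq : OmX = OmC CX := by
  unfold OmX OmC CX
  congr 1
  ext z
  constructor
  · rintro ((h | h) | h)
    · exact Or.inl ⟨5, Or.inl rfl, by rw [h]; norm_num⟩
    · exact Or.inl ⟨29, Or.inr rfl, by rw [h]; norm_num⟩
    · exact Or.inr h
  · rintro (⟨q, rfl | rfl, hz⟩ | h)
    · exact Or.inl (Or.inl (by rw [hz]; norm_num))
    · exact Or.inl (Or.inr (by rw [hz]; norm_num))
    · exact Or.inr h

lemma CX_adm {q : ℕ} (h : CX q) : Adm q := by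
  rcases h with rfl | rfl
  · exact ine_adm ine_five
  · exact half_adm half_29 (by norm_num)

/-- **(6)** -/
theorem ex_bnd (F : IntermediateField ℚ ℂ) [NumberField F] (hF : F ≤ OmX) :
    Abl F ∧ ∃ m, BndS 2 m (gc 13 128 F) := by
  rw [OmX_eq] at hF
  obtain ⟨A, n, hA, hFA⟩ := Pool.Agent.W2helper41.Q.le_OmC F hF
  obtain ⟨S, hS⟩ : ∃ S, S = A.map (Nat.castEmbedding (R := ℤ)) := ⟨_, rfl⟩
  have hmq : mqN A = mq S := by rw [hS]; exact Pool.Agent.W2helper41.Y.mq_nat A
  have hG := comp_nf S n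
  have hGo : mq S ⊔ Lay (n + 1) ≤ OmC Adm := by
    rw [← hmq]
    exact mq_le_OmC (fun q hq => CX_adm (hA q hq)) n
  rw [hmq] at hFA
  have hab := abl_omega _ hGo
  refine ⟨hab.sub (IntermediateField.inclusion hFA).toRingHom, ?_⟩
  refine bnd_F n S ?_ (mq S ⊔ Lay (n + 1)) F rfl hab hFA ?_
  · intro d hd
    rw [hS] at hd
    obtain ⟨k, hk, rfl⟩ := mem_map.1 hd
    exact adm_gd (CX_adm (hA k hk))
  · intro B hB hz
    rw [hS] at hB
    obtain ⟨B', hB', rfl⟩ := subset_map_iff.1 hB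
    have e : ∏ d ∈ B'.map (Nat.castEmbedding (R := ℤ)), d = ((∏ q ∈ B', q : ℕ) : ℤ) := by
      rw [prod_map, Nat.cast_prod]
      rfl
    rw [e]
    have hsub : B' ⊆ {5, 29} := by
      intro q hq
      rcases hA q (hB' hq) with rfl | rfl <;> simp
    have hpow : B' = ∅ ∨ B' = {5} ∨ B' = {29} ∨ B' = {5, 29} := by
      by_cases h5 : 5 ∈ B' <;> by_cases h29 : 29 ∈ B'
      · right; right; right
        refine Subset.antisymm hsub ?_
        intro q hq
        rcases mem_insert.1 hq with rfl | hq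
        · exact h5
        · rw [mem_singleton.1 hq]; exact h29
      · right; left
        ext q
        constructor
        · intro hq
          rcases mem_insert.1 (hsub hq) with rfl | h
          · exact mem_singleton_self 5
          · rw [mem_singleton.1 h] at hq
            exact absurd hq h29
        · intro hq
          rw [mem_singleton.1 hq]
          exact h5
      · right; right; left
        ext q
        constructor
        · intro hq
          rcases mem_insert.1 (hsub hq) with rfl | h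
          · exact absurd hq h5
          · exact h
        · intro hq
          rw [mem_singleton.1 hq]
          exact h29
      · left
        rw [eq_empty_iff_forall_notMem]
        intro q hq
        rcases mem_insert.1 (hsub hq) with rfl | h
        · exact h5 hq
        · rw [mem_singleton.1 h] at hq
          exact h29 hq
    rcases hpow with rfl | rfl | rfl | rfl
    · exact ⟨0, bnd_reg (Pool.Agent.W2helper41.Y.reg_inert (A := ∅) (by simp))⟩
    · refine ⟨0, bnd_reg (Pool.Agent.W2helper41.Y.reg_inert (A := {5}) ?_)⟩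
      intro q hq
      rw [mem_singleton.1 hq]
      exact ine_five
    · have h1 := (bnd_half (T := ∅) (by simp) half_29 (by
        rw [prod_empty, mul_one]
        exact inf_29)).2
      rw [prod_empty, mul_one] at h1
      rw [prod_singleton]
      exact ⟨0, h1⟩
    · have e2 : 29 * ∏ q ∈ ({5} : Finset ℕ), q = 145 := by
        rw [prod_singleton]
      have e3 : ∏ q ∈ ({5, 29} : Finset ℕ), q = 145 := by
        rw [prod_pair (by norm_num)]
        norm_num
      have h1 := (bnd_half (T := {5}) (by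
        intro q hq
        rw [mem_singleton.1 hq]
        exact ine_five) half_29 (by
        rw [e2]
        exact inf_145)).2
      rw [e2] at h1
      rw [e3]
      exact ⟨0, h1⟩

/-- the change of variables for the twist -/
lemma vr_tw {F : Type} [Field F] [CharZero F] {D : ℤ} (hD : D ≠ 0) {z : F}
    (hz : z ^ 2 = (D : F)) (alg : Algebra ℚ F) :
    VR ((gc (13 * D) (128 * D ^ 2) ℚ).baseChange F) (gc 13 128 F) z 0 0 0 := by
  have hz0 : z ≠ 0 := by
    rintro rfl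
    rw [zero_pow two_ne_zero] at hz
    exact hD (by exact_mod_cast hz.symm)
  refine ⟨hz0, ?_, ?_, ?_, ?_, ?_⟩
  · simp [gc, WeierstrassCurve.baseChange, WeierstrassCurve.map]
  · simp only [gc, WeierstrassCurve.baseChange, WeierstrassCurve.map]
    rw [hz]
    push_cast
    simp
    ring
  · simp [gc, WeierstrassCurve.baseChange, WeierstrassCurve.map]
  · simp only [gc, WeierstrassCurve.baseChange, WeierstrassCurve.map]
    rw [show z ^ 4 = (z ^ 2) ^ 2 by ring, hz]
    push_cast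
    simp
    ring
  · simp [gc, WeierstrassCurve.baseChange, WeierstrassCurve.map]

/-- the points over `F` -/
theorem inf_up {F : Type} [Field F] [NumberField F] {D : ℤ} (hD : D ≠ 0) {z : F}
    (hz : z ^ 2 = (D : F)) (h : Infinite (gc (13 * D) (128 * D ^ 2) ℚ).toAffine.Point) :
    Infinite (cu F).toAffine.Point := by
  have hD1 : (gc 13 128 F).Δ ≠ 0 := by
    have := gc_delta (k := F) (D := 1) one_ne_zero
    simpa using this
  obtain ⟨φ, hφ⟩ := pts_inj (vr_tw hD hz inferInstance) hD1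
  have h1 : Infinite (gc 13 128 F).toAffine.Point := Infinite.of_injective φ hφ
  exact Infinite.of_injective _ ((vr_cu F).equiv (cu_delta F)).symm.injective

theorem ex_inf (F : IntermediateField ℚ ℂ) [NumberField F]
    (hz : ∃ z ∈ F, z ^ 2 = 29 ∨ z ^ 2 = 145) : Infinite (cu F).toAffine.Point := by
  obtain ⟨z, hz, h | h⟩ := hz
  · refine inf_up (D := ((29 : ℕ) : ℤ)) (by norm_num) (z := (⟨z, hz⟩ : F)) ?_ inf_29
    apply Subtype.ext
    show z ^ 2 = _
    rw [h]
    exact (map_ofNat F.val 29).symm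
  · refine inf_up (D := ((145 : ℕ) : ℤ)) (by norm_num) (z := (⟨z, hz⟩ : F)) ?_ inf_145
    apply Subtype.ext
    show z ^ 2 = _
    rw [h]
    exact (map_ofNat F.val 145).symm

end Pool.Agent.W2helper41.R
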