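import Mathlib

/-!
# The subfields of an abelian field that is generated by square roots and a field of odd degree
-/

set_option autoImplicit false
set_option linter.unusedSectionVars false
set_option linter.unusedVariables false

open Finset NumberField

namespace Pool.Agent.W2helper41.R

open scoped Classical

section

variable {L : Type} [Field L] [NumberField L] [IsGalois ℚ L]
  (hab : ∀ g h : L ≃ₐ[ℚ] L, g * h = h * g)

include hab

/-- the subfields are normal -/
lemma im_mem (F : IntermediateField ℚ L) (g : L ≃ₐ[ℚ] L) {x : L} (hx : x ∈ F) : g x ∈ F := by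
  have h1 : ∀ h ∈ F.fixingSubgroup, h (g x) = g x := by
    intro h hh
    have h2 : h (g x) = (h * g) x := rfl
    rw [h2, hab h g]
    show g (h x) = g x
    rw [(IntermediateField.mem_fixingSubgroup_iff F h).1 hh x hx]
  have h3 := IsGalois.fixedField_fixingSubgroup F
  rw [← h3]
  exact (IntermediateField.mem_fixedField_iff _ _).2 h1

/-- the decomposition in eigenvectors -/
lemma eig_sum (F : IntermediateField ℚ L) (A : Finset (L ≃ₐ[ℚ] L)) (hA : ∀ g ∈ A, g * g = 1) :
    ∀ x ∈ F, x ∈ AddSubmonoid.closure {y : L | y ∈ F ∧ ∀ g ∈ A, g y = y ∨ g y = -y} := by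
  induction A using Finset.induction_on with
  | empty =>
    intro x hx
    exact AddSubmonoid.subset_closure ⟨hx, by simp⟩
  | insert g A hgA ih =>
    intro x hx
    have h1 := ih (fun h hh => hA h (mem_insert_of_mem hh)) x hx
    refine (AddSubmonoid.closure_le.2 ?_) h1
    rintro y ⟨hy, hyA⟩
    have hgg : ∀ z, g (g z) = z := fun z => by
      have h2 : (g * g) z = z := by rw [hA g (mem_insert_self _ _)]; rfl
      exact h2
    have hgy := im_mem hab F g hy
    have e1 : y = (y + g y) / 2 + (y - g y) / 2 := by ring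
    have hcom : ∀ h : L ≃ₐ[ℚ] L, ∀ z, h (g z) = g (h z) := fun h z => by
      have h2 : (h * g) z = (g * h) z := by rw [hab]
      exact h2
    show y ∈ AddSubmonoid.closure _
    rw [e1]
    refine add_mem (AddSubmonoid.subset_closure ⟨?_, ?_⟩) (AddSubmonoid.subset_closure ⟨?_, ?_⟩)
    · exact div_mem (add_mem hy hgy) (by exact_mod_cast (natCast_mem F 2))
    · intro h hh
      rcases mem_insert.1 hh with rfl | hh
      · left
        rw [map_div₀, map_add, hgg, add_comm, map_ofNat]
      · rcases hyA h hh with h3 | h3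
        · left
          rw [map_div₀, map_add, hcom, h3, map_ofNat]
        · right
          rw [map_div₀, map_add, hcom, h3, map_ofNat, map_neg]
          ring
    · exact div_mem (sub_mem hy hgy) (by exact_mod_cast (natCast_mem F 2))
    · intro h hh
      rcases mem_insert.1 hh with rfl | hh
      · right
        rw [map_div₀, map_sub, hgg, map_ofNat]
        ring
      · rcases hyA h hh with h3 | h3
        · left
          rw [map_div₀, map_sub, hcom, h3, map_ofNat]
        · right
          rw [map_div₀, map_sub, hcom, h3, map_ofNat, map_neg]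
          ring

/-- **The subfields.** -/
theorem dcp (K F : IntermediateField ℚ L)
    (hodd : ∀ g : L ≃ₐ[ℚ] L, ∃ m : ℕ, Odd m ∧ ∀ x ∈ K, (g ^ m) x = x)
    (S : Finset ℤ) (h0 : ∀ d ∈ S, d ≠ 0) (r : ℤ → L) (hr : ∀ d ∈ S, r d ^ 2 = (d : L))
    (hL : ∀ M : IntermediateField ℚ L, K ≤ M → (∀ d ∈ S, r d ∈ M) → M = ⊤) :
    F ≤ IntermediateField.adjoin ℚ {z : L | z ∈ F ∧ (z ∈ K ∨ ∃ T ⊆ S, z ^ 2 = ((∏ d ∈ T, d : ℤ) : L))} := by
  obtain ⟨H, hH⟩ : ∃ H : Finset (L ≃ₐ[ℚ] L), ∀ g, g ∈ H ↔ ∀ x ∈ K, g x = x :=
    ⟨univ.filter fun g => ∀ x ∈ K, g x = x, fun g => by simp⟩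
  have hrpm : ∀ (g : L ≃ₐ[ℚ] L), ∀ d ∈ S, g (r d) = r d ∨ g (r d) = -r d := by
    intro g d hd
    have h1 : g (r d) ^ 2 = r d ^ 2 := by rw [← map_pow, hr d hd, map_intCast]
    exact sq_eq_sq_iff_eq_or_eq_neg.1 h1
  have hr0 : ∀ d ∈ S, r d ≠ 0 := by
    intro d hd h1
    have h2 := hr d hd
    rw [h1, zero_pow (by norm_num)] at h2
    exact h0 d hd (by exact_mod_cast h2.symm)
  -- `H` fixes pointwise
  have hfixtop : ∀ g : L ≃ₐ[ℚ] L, g ∈ H → (∀ d ∈ S, g (r d) = r d) → g = 1 := by
    intro g hg hgd
    have h1 := hL (IntermediateField.fixedField (Subgroup.zpowers g)) ?_ ?_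
    · ext x
      have h2 : x ∈ IntermediateField.fixedField (Subgroup.zpowers g) := by
        rw [h1]; trivial
      exact (IntermediateField.mem_fixedField_iff _ _).1 h2 g (Subgroup.mem_zpowers g)
    · intro x hx
      rw [IntermediateField.mem_fixedField_iff]
      intro f hf
      have h3 : Subgroup.zpowers g ≤ MulAction.stabilizer (L ≃ₐ[ℚ] L) x := by
        rw [Subgroup.zpowers_le]
        exact (hH g).1 hg x hx
      exact h3 hf
    · intro d hd
      rw [IntermediateField.mem_fixedField_iff]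
      intro f hf
      have h3 : Subgroup.zpowers g ≤ MulAction.stabilizer (L ≃ₐ[ℚ] L) (r d) := by
        rw [Subgroup.zpowers_le]
        exact hgd d hd
      exact h3 hf
  have hHsq : ∀ g ∈ H, g * g = 1 := by
    intro g hg
    refine hfixtop _ ((hH _).2 fun x hx => ?_) fun d hd => ?_
    · show g (g x) = x
      rw [(hH g).1 hg x hx, (hH g).1 hg x hx]
    · show g (g (r d)) = r d
      rcases hrpm g d hd with h | h
      · rw [h, h]
      · rw [h, map_neg, h, neg_neg]
  obtain ⟨X, hX⟩ : ∃ X : Set L, X = {z : L | z ∈ F ∧ (z ∈ K ∨ ∃ T ⊆ S, z ^ 2 = ((∏ d ∈ T, d : ℤ) : L))} :=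
    ⟨_, rfl⟩
  rw [← hX]
  intro x hx
  refine ((AddSubmonoid.closure_le
    (S := (IntermediateField.adjoin ℚ X).toSubfield.toAddSubgroup.toAddSubmonoid)).2 ?_)
    (eig_sum hab F H hHsq x hx)
  rintro y ⟨hyF, hyH⟩
  show y ∈ IntermediateField.adjoin ℚ X
  by_cases hy0 : y = 0
  · rw [hy0]; exact zero_mem _
  -- the products of the roots
  obtain ⟨z, hz⟩ : ∃ z : Finset ℤ → L, ∀ T, z T = ∏ d ∈ T, r d := ⟨_, fun T => rfl⟩
  have hz0 : ∀ T ⊆ S, z T ≠ 0 := fun T hT => by
    rw [hz]
    exact prod_ne_zero_iff.2 fun d hd => hr0 d (hT hd)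
  have hzpm : ∀ g ∈ H, ∀ T ⊆ S, g (z T * y) = z T * y ∨ g (z T * y) = -(z T * y) := by
    intro g hg T hT
    have h1 : g (z T) = z T ∨ g (z T) = -z T := by
      rw [hz]
      clear hz0
      induction T using Finset.induction_on with
      | empty => left; simp
      | insert a T haT ih =>
        rw [prod_insert haT, map_mul]
        rcases hrpm g a (hT (mem_insert_self _ _)) with h | h <;>
        rcases ih (fun b hb => hT (mem_insert_of_mem hb)) with h' | h' <;> rw [h, h']
        · left; rfl
        · right; ring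
        · right; ring
        · left; ring
    rw [map_mul]
    rcases h1 with h | h <;> rcases hyH g hg with h' | h' <;> rw [h, h']
    · left; rfl
    · right; ring
    · right; ring
    · left; ring
  -- the sum
  have hsum : ∑ T ∈ S.powerset, ∑ g ∈ H, g (z T * y) / (z T * y) = 2 ^ S.card := by
    rw [sum_comm]
    have h1 : ∀ g ∈ H, ∑ T ∈ S.powerset, g (z T * y) / (z T * y) =
        (∏ d ∈ S, (1 + g (r d) / r d)) * (g y / y) := by
      intro g hg
      rw [prod_one_add, sum_mul]
      refine sum_congr rfl fun T hT => ?_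
      rw [map_mul, hz, map_prod, prod_div_distrib, mul_div_mul_comm]
    rw [sum_congr rfl h1, sum_eq_single (1 : L ≃ₐ[ℚ] L)]
    · have h2 : ∀ d ∈ S, 1 + (1 : L ≃ₐ[ℚ] L) (r d) / r d = 2 := by
        intro d hd
        rw [AlgEquiv.one_apply, div_self (hr0 d hd)]
        norm_num
      rw [prod_congr rfl h2, prod_const, AlgEquiv.one_apply, div_self hy0, mul_one]
    · intro g hg hg1
      have h2 : ∃ d ∈ S, g (r d) ≠ r d := by
        by_contra hcon
        push Not at hcon
        exact hg1 (hfixtop g hg hcon)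
      obtain ⟨d, hd, h3⟩ := h2
      rw [prod_eq_zero hd, zero_mul]
      rw [(hrpm g d hd).resolve_left h3, neg_div, div_self (hr0 d hd)]
      norm_num
    · intro h1
      exact absurd ((hH 1).2 fun x _ => rfl) h1
  obtain ⟨T, hT, hTne⟩ : ∃ T ∈ S.powerset, ∑ g ∈ H, g (z T * y) / (z T * y) ≠ 0 := by
    by_contra hcon
    push Not at hcon
    rw [sum_eq_zero hcon] at hsum
    exact pow_ne_zero S.card (two_ne_zero (α := L)) hsum.symm
  rw [mem_powerset] at hT
  have hb0 : z T * y ≠ 0 := mul_ne_zero (hz0 T hT) hy0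
  obtain ⟨b, hb⟩ : ∃ b, b = z T * y := ⟨_, rfl⟩
  rw [← hb] at hTne hb0
  -- the element is in `K`
  have hcoef : ∃ n : ℤ, ∑ g ∈ H, g b / b = (n : L) := by
    have h1 : ∀ A ⊆ H, ∃ n : ℤ, ∑ g ∈ A, g b / b = (n : L) := by
      intro A
      induction A using Finset.induction_on with
      | empty => intro _; exact ⟨0, by simp⟩
      | insert a A haA ih =>
        intro hA
        obtain ⟨n, hn⟩ := ih fun c hc => hA (mem_insert_of_mem hc)
        rcases hzpm a (hA (mem_insert_self _ _)) T hT with h | h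
        · refine ⟨1 + n, ?_⟩
          rw [sum_insert haA, hn, hb, h, div_self (by rw [← hb]; exact hb0)]
          push_cast
          ring
        · refine ⟨-1 + n, ?_⟩
          rw [sum_insert haA, hn, hb, h, neg_div, div_self (by rw [← hb]; exact hb0)]
          push_cast
          ring
    exact h1 H (Subset.refl _)
  obtain ⟨n, hn⟩ := hcoef
  have hn0 : (n : L) ≠ 0 := by rw [← hn]; exact hTne
  have hbK : b ∈ K := by
    have h1 : ∑ g ∈ H, g b = (n : L) * b := by
      rw [← hn, sum_mul]
      refine sum_congr rfl fun g _ => ?_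
      rw [div_mul_cancel₀ _ hb0]
    have h2 : ∑ g ∈ H, g b ∈ K := by
      have h3 := IsGalois.fixedField_fixingSubgroup K
      rw [← h3, IntermediateField.mem_fixedField_iff]
      intro f hf
      rw [IntermediateField.mem_fixingSubgroup_iff] at hf
      rw [map_sum]
      refine sum_bij (fun g _ => f * g) ?_ ?_ ?_ ?_
      · intro g hg
        refine (hH _).2 fun x hx => ?_
        show f (g x) = x
        rw [(hH g).1 hg x hx, hf x hx]
      · intro g _ g' _ h
        exact mul_left_cancel h
      · intro g hg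
        refine ⟨f⁻¹ * g, (hH _).2 fun x hx => ?_, mul_inv_cancel_left f g⟩
        show f⁻¹ (g x) = x
        rw [(hH g).1 hg x hx]
        have h5 : f⁻¹ (f x) = x := by
          rw [← AlgEquiv.mul_apply, inv_mul_cancel, AlgEquiv.one_apply]
        rwa [hf x hx] at h5
      · intro g _
        rfl
    have h4 : b = (∑ g ∈ H, g b) / (n : L) := by
      rw [h1, mul_div_cancel_left₀ _ hn0]
    rw [h4]
    exact div_mem h2 (intCast_mem K n)
  have hzT2 : z T ^ 2 = ((∏ d ∈ T, d : ℤ) : L) := by
    rw [hz, ← prod_pow, Int.cast_prod]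
    exact prod_congr rfl fun d hd => hr d (hT hd)
  have hb2 : b ^ 2 ∈ F := by
    rw [hb, mul_pow, hzT2]
    exact mul_mem (intCast_mem F _) (pow_mem hyF 2)
  have hbF : b ∈ F := by
    have h3 := IsGalois.fixedField_fixingSubgroup F
    rw [← h3, IntermediateField.mem_fixedField_iff]
    intro g hg
    rw [IntermediateField.mem_fixingSubgroup_iff] at hg
    have h1 : g b ^ 2 = b ^ 2 := by rw [← map_pow, hg _ hb2]
    rcases sq_eq_sq_iff_eq_or_eq_neg.1 h1 with h | h
    · exact h
    · exfalso
      obtain ⟨m, hm, hmx⟩ := hodd g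
      have h4 : ∀ k : ℕ, (g ^ k) b = (-1) ^ k * b := by
        intro k
        induction k with
        | zero => simp
        | succ k ih =>
          rw [pow_succ, AlgEquiv.mul_apply, h, map_neg, ih, pow_succ]
          ring
      have h5 := hmx b hbK
      rw [h4, hm.neg_one_pow] at h5
      have h6 : b = 0 := by
        have h7 : (2 : L) * b = 0 := by linear_combination -h5
        exact (mul_eq_zero.1 h7).resolve_left two_ne_zero
      exact hb0 h6
  have hzF : z T ∈ F := by
    have h1 : z T = b / y := by rw [hb, mul_div_cancel_right₀ _ hy0]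
    rw [h1]
    exact div_mem hbF hyF
  have h1 : y = b / z T := by rw [hb, mul_div_cancel_left₀ _ (hz0 T hT)]
  rw [h1, hX]
  refine div_mem (IntermediateField.subset_adjoin ℚ _ ⟨hbF, Or.inl hbK⟩)
    (IntermediateField.subset_adjoin ℚ _ ⟨hzF, Or.inr ⟨T, hT, hzT2⟩⟩)

end

end Pool.Agent.W2helper41.R
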