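import Pool.Agent.W2helper41.R.Dcp
import Pool.Agent.Y682.XD.Fin

/-!
# The subfields of the composites, in the complex numbers
-/

set_option autoImplicit false
set_option linter.unusedSectionVars false
set_option linter.unusedVariables false

open Finset NumberField

namespace Pool.Agent.W2helper41.R

open scoped Classical

open Pool.Agent.Y682.XD (mq)

/-- abelian over the rational numbers -/
def Abl (G : Type) [Field G] [NumberField G] : Prop :=
  IsGalois ℚ G ∧ ∀ g h : G ≃ₐ[ℚ] G, g * h = h * g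

lemma Abl.sub {F G : Type} [Field F] [NumberField F] [Field G] [NumberField G] (h : Abl G)
    (i : F →+* G) : Abl F := by
  have h0 : IsGalois ℚ G := h.1
  have h1 : IsMulCommutative (G ≃ₐ[ℚ] G) := ⟨⟨h.2⟩⟩
  have h2 : IsAbelianGalois ℚ G := { toIsGalois := h0, toIsMulCommutative := h1 }
  have h3 : IsAbelianGalois ℚ F := IsAbelianGalois.of_algHom i.toRatAlgHom
  exact ⟨h3.toIsGalois, fun g h => h3.toIsMulCommutative.is_comm.comm g h⟩

/-- **The subfields.** -/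
theorem dcpE {L : Type} [Field L] [NumberField L] (hab : Abl L) (φ : L →+* ℂ)
    (S : Finset ℤ) (h0 : ∀ d ∈ S, d ≠ 0) {K' : Type} [Field K'] [NumberField K'] (j : K' →+* L)
    (hodd : Odd (Module.finrank ℚ K')) (F K : IntermediateField ℚ ℂ)
    (hK : ∀ x : ℂ, x ∈ K → ∃ y : K', φ (j y) = x)
    (hG : mq S ⊔ K = φ.toRatAlgHom.fieldRange)
    (hF : F ≤ mq S ⊔ K) (M : IntermediateField ℚ ℂ)
    (hM1 : ∀ x ∈ F, x ∈ K → x ∈ M)
    (hM2 : ∀ x ∈ F, (∃ T ⊆ S, x ^ 2 = ((∏ d ∈ T, d : ℤ) : ℂ)) → x ∈ M) : F ≤ M := by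
  have hgG : IsGalois ℚ L := hab.1
  have hgK : IsGalois ℚ K' := (hab.sub j).1
  obtain ⟨ψ, hψ⟩ : ∃ ψ : L →ₐ[ℚ] ℂ, ψ = φ.toRatAlgHom := ⟨_, rfl⟩
  have hψ' : ∀ x, ψ x = φ x := fun x => by rw [hψ]; rfl
  rw [← hψ] at hG
  -- the roots
  have hroot : ∀ d : ℤ, ∃ z : L, d ∈ S → z ^ 2 = (d : L) := by
    intro d
    by_cases hd : d ∈ S
    · obtain ⟨z, hz⟩ : ∃ z : ℂ, z ^ 2 = (d : ℂ) := IsAlgClosed.exists_pow_nat_eq _ (by norm_num)
      have h1 : z ∈ mq S := IntermediateField.subset_adjoin ℚ _ ⟨d, hd, hz⟩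
      have h2 : z ∈ ψ.fieldRange := by rw [← hG]; exact (le_sup_left : mq S ≤ mq S ⊔ K) h1
      obtain ⟨y, hy⟩ := h2
      have hy' : ψ y = z := hy
      refine ⟨y, fun _ => ψ.toRingHom.injective ?_⟩
      show ψ (y ^ 2) = ψ (d : L)
      rw [map_pow, hy', hz, map_intCast]
    · exact ⟨0, fun h => absurd h hd⟩
  choose r hr using hroot
  have hodd' : ∀ g : L ≃ₐ[ℚ] L, ∃ m : ℕ, Odd m ∧ ∀ x ∈ K.comap ψ, (g ^ m) x = x := by
    intro g
    let algKG : Algebra K' L := j.toAlgebra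
    have htow : IsScalarTower ℚ K' L := IsScalarTower.of_algebraMap_eq fun x => by
      show _ = j _
      rw [eq_ratCast, eq_ratCast, map_ratCast]
    refine ⟨Nat.card (K' ≃ₐ[ℚ] K'), ?_, ?_⟩
    · rw [IsGalois.card_aut_eq_finrank ℚ K']
      exact hodd
    · intro x hx
      have h1 : (AlgEquiv.restrictNormalHom (F := ℚ) (K₁ := L) K') (g ^ Nat.card (K' ≃ₐ[ℚ] K')) = 1 := by
        rw [map_pow]
        exact pow_card_eq_one'
      have h2 : (g ^ Nat.card (K' ≃ₐ[ℚ] K')).restrictNormal K' = 1 := h1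
      obtain ⟨y, hy⟩ := hK (ψ x) hx
      have hyx : j y = x := φ.injective (by rw [hy, hψ'])
      have h3 := (g ^ Nat.card (K' ≃ₐ[ℚ] K')).restrictNormal_commutes K' y
      rw [h2] at h3
      rw [← hyx]
      exact h3.symm
  have key := dcp (L := L) hab.2 (K.comap ψ) (F.comap ψ) hodd' S h0 r
    (fun d hd => hr d hd) ?_
  · intro x hx
    have hx2 : x ∈ ψ.fieldRange := by rw [← hG]; exact hF hx
    obtain ⟨y, hy⟩ := hx2
    have hy' : ψ y = x := hy
    have h1 : y ∈ F.comap ψ := by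
      show ψ y ∈ F
      rw [hy']
      exact hx
    have h2 : IntermediateField.adjoin ℚ {z : L | z ∈ F.comap ψ ∧ (z ∈ K.comap ψ ∨
        ∃ T ⊆ S, z ^ 2 = ((∏ d ∈ T, d : ℤ) : L))} ≤ M.comap ψ := by
      rw [IntermediateField.adjoin_le_iff]
      rintro z ⟨hz1, hz2 | ⟨T, hT, hz2⟩⟩
      · exact hM1 _ hz1 hz2
      · refine hM2 _ hz1 ⟨T, hT, ?_⟩
        have h3 := congrArg ψ hz2
        rw [map_pow, map_intCast] at h3
        exact h3
    have h3 : ψ y ∈ M := h2 (key h1)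
    rw [hy'] at h3
    exact h3
  · intro N hKN hrN
    have h1 : mq S ⊔ K ≤ N.map ψ := by
      refine sup_le ?_ ?_
      · unfold mq
        rw [IntermediateField.adjoin_le_iff]
        rintro z ⟨d, hd, hz⟩
        have h2 : ψ (r d) ^ 2 = (d : ℂ) := by
          have h3 := congrArg ψ (hr d hd)
          rw [map_pow, map_intCast] at h3
          exact h3
        rcases sq_eq_sq_iff_eq_or_eq_neg.1 (hz.trans h2.symm) with h | h
        · exact ⟨r d, hrN d hd, h.symm⟩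
        · refine ⟨-r d, N.neg_mem (hrN d hd), ?_⟩
          show ψ (-r d) = z
          rw [h, map_neg]
      · intro z hz
        obtain ⟨y, hy⟩ := hK z hz
        refine ⟨j y, hKN ?_, ?_⟩
        · show ψ (j y) ∈ K
          rw [hψ', hy]
          exact hz
        · show ψ (j y) = z
          rw [hψ', hy]
    rw [eq_top_iff]
    intro x _
    have h2 : ψ x ∈ N.map ψ := by
      apply h1
      rw [hG]
      exact ⟨x, rfl⟩
    obtain ⟨y, hy, hyx⟩ := h2
    have h3 : y = x := ψ.toRingHom.injective hyx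
    rw [← h3]
    exact hy

/-- **The subfields.** -/
theorem dcpC (S : Finset ℤ) (h0 : ∀ d ∈ S, d ≠ 0) (K G F : IntermediateField ℚ ℂ)
    [NumberField K] [NumberField G] (hG : G = mq S ⊔ K) (hab : Abl G)
    (hodd : Odd (Module.finrank ℚ K)) (hF : F ≤ G) (M : IntermediateField ℚ ℂ)
    (hM1 : ∀ x ∈ F, x ∈ K → x ∈ M)
    (hM2 : ∀ x ∈ F, (∃ T ⊆ S, x ^ 2 = ((∏ d ∈ T, d : ℤ) : ℂ)) → x ∈ M) : F ≤ M := by
  have hKG : K ≤ G := by rw [hG]; exact le_sup_right
  refine dcpE (L := G) hab G.val.toRingHom S h0 (K' := K)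
    (IntermediateField.inclusion hKG).toRingHom hodd F K (fun x hx => ⟨⟨x, hx⟩, rfl⟩) ?_
    (by rw [← hG]; exact hF) M hM1 hM2
  rw [← hG]
  ext x
  constructor
  · intro hx
    exact ⟨⟨x, hx⟩, rfl⟩
  · rintro ⟨y, hy⟩
    have h1 : (y : ℂ) = x := hy
    rw [← h1]
    exact y.2

end Pool.Agent.W2helper41.R
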