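import Pool.Agent.Y667.BKP.Main
import Pool.Agent.TH841.NF.Chi

/-!
# The Kummer map onto the Bloch–Kato Selmer group, if the `p`-primary part of `Ш` has bounded exponent
-/

set_option autoImplicit false
set_option linter.unusedSectionVars false
set_option linter.unusedVariables false

open scoped Classical

namespace Pool.Agent.W2helper41.R

open NumberField WeierstrassCurve
open Pool.Agent.TH841.SH.D (Pt act Gal Coch)
open Pool.Agent.TH841.NF (pt_ext)
open Pool.Agent.TH841.NF.D (Sha)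
open Pool.Agent.Y667.BKP

section act

variable {K : Type} [Field K]

lemma act_act' (W : WeierstrassCurve K) {F L L' : Type} [Field F] [Field L]
    [Field L'] [Algebra K F] [Algebra K L] [Algebra K L'] (ψ : L →ₐ[K] L') (φ : F →ₐ[K] L)
    (P : Pt W F) : act W ψ (act W φ P) = act W (ψ.comp φ) P := by
  rcases P with _ | ⟨x, y, h⟩
  · rfl
  · rfl

lemma act_mul' (W : WeierstrassCurve K) (σ τ : Gal K) (Q : Pt W (AlgebraicClosure K)) :
    act W (σ * τ).toAlgHom Q = act W σ.toAlgHom (act W τ.toAlgHom Q) := by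
  rw [act_act']
  rfl

lemma lc_apply' (x : AlgebraicClosure K) :
    IsLocallyConstant (fun σ : Gal K => σ x) := by
  have hfd : FiniteDimensional K (IntermediateField.adjoin K {x}) :=
    IntermediateField.adjoin.finiteDimensional (Algebra.IsIntegral.isIntegral x)
  rw [IsLocallyConstant.iff_exists_open]
  intro σ
  refine ⟨(fun τ => σ⁻¹ * τ) ⁻¹'
    ((IntermediateField.adjoin K {x}).fixingSubgroup : Set (Gal K)),
    (IntermediateField.fixingSubgroup_isOpen _).preimage (continuous_const_mul _), ?_, ?_⟩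
  · show σ⁻¹ * σ ∈ (IntermediateField.adjoin K {x}).fixingSubgroup
    rw [inv_mul_cancel]
    exact one_mem _
  · intro τ hτ
    have h1 : σ⁻¹ * τ ∈ (IntermediateField.adjoin K {x}).fixingSubgroup := hτ
    rw [IntermediateField.mem_fixingSubgroup_iff] at h1
    have h2 := h1 x (IntermediateField.mem_adjoin_simple_self K x)
    rw [AlgEquiv.mul_apply] at h2
    have h3 := congrArg σ h2
    rw [← AlgEquiv.mul_apply, mul_inv_cancel, AlgEquiv.one_apply] at h3
    exact h3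

lemma lc_act' (W : WeierstrassCurve K) (Q : Pt W (AlgebraicClosure K)) :
    IsLocallyConstant (fun σ : Gal K => act W σ.toAlgHom Q) := by
  rcases Q with _ | ⟨x, y, h⟩
  · exact IsLocallyConstant.const _
  · rw [IsLocallyConstant.iff_eventually_eq]
    intro σ
    have h1 := ((IsLocallyConstant.iff_eventually_eq _).1 (lc_apply' x)) σ
    have h2 := ((IsLocallyConstant.iff_eventually_eq _).1 (lc_apply' y)) σ
    filter_upwards [h1, h2] with τ h3 h4
    exact pt_ext _ _ h3 h4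

end act

section
variable {F : Type} [Field F] [NumberField F] {p : ℕ}

/-- the point is rational -/
def Rat (W : WeierstrassCurve F) (P : Pt W (AlgebraicClosure F)) : Prop :=
  ∀ σ : Gal F, act W σ.toAlgHom P = P

/-- the class of a cocycle with values in the Tate module -/
def Integral (p : ℕ) (W : WeierstrassCurve F) (x : H1f p W) : Prop :=
  ∃ c : selCocV p W, (QuotientAddGroup.mk c : H1f p W) = x ∧ ∀ σ : Gal F, c.1 σ 0 = 0

/-- the Kummer class of a point -/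
def KumCls (p : ℕ) (W : WeierstrassCurve F) (P : Pt W (AlgebraicClosure F)) (x : H1f p W) : Prop :=
  ∃ (c : selCocV p W) (Q : ℕ → Pt W (AlgebraicClosure F)), (QuotientAddGroup.mk c : H1f p W) = x ∧
    Q 0 = P ∧ (∀ n, p • Q (n + 1) = Q n) ∧
    ∀ (σ : Gal F) (n : ℕ), c.1 σ n = act W σ.toAlgHom (Q n) - Q n

/-- the exponent of the `p`-primary part of `Ш` divides `p ^ m` -/
def BndS (p m : ℕ) (W : WeierstrassCurve F) : Prop :=
  ∀ (k : ℕ) (x : Sha W), (p ^ k : ℕ) • x = 0 → (p ^ m : ℕ) • x = 0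

lemma pwp {A : Type} [AddCommGroup A] {Q : ℕ → A} (h : ∀ n, p • Q (n + 1) = Q n) (n k : ℕ) :
    p ^ k • Q (n + k) = Q n := by
  induction k with
  | zero => simp
  | succ k ih => rw [pow_succ, mul_smul, ← add_assoc, h, ih]

lemma integral_of {W : WeierstrassCurve F} (x : H1f p W) : ∃ m : ℕ, Integral p W (p ^ m • x) := by
  obtain ⟨⟨c, hc⟩, rfl⟩ := QuotientAddGroup.mk_surjective x
  obtain ⟨m, hm⟩ := coord_tor (show IsSelV p W c from hc).1 0
  refine ⟨m, (p ^ m : ℕ) • ⟨c, hc⟩, QuotientAddGroup.mk_nsmul _ _ _, fun σ => ?_⟩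
  exact hm σ

/-- injectivity of the Kummer map -/
theorem inj_kum {W : WeierstrassCurve F} {P : Pt W (AlgebraicClosure F)} {k z : H1f p W} {n : ℕ}
    (hP : Rat W P) (hk : KumCls p W P k) (hz : Integral p W z) (h : k = p ^ n • z) :
    ∃ R T : Pt W (AlgebraicClosure F), Rat W R ∧ Rat W T ∧ P = p ^ n • R + T ∧
      ∃ m : ℕ, p ^ m • T = 0 := by
  obtain ⟨c, Q, rfl, rfl, hQ, hc⟩ := hk
  obtain ⟨y, rfl, hy⟩ := hz
  have h1 : (QuotientAddGroup.mk (c - (p ^ n : ℕ) • y) : H1f p W) = 0 := by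
    rw [QuotientAddGroup.mk_sub, QuotientAddGroup.mk_nsmul]
    exact sub_eq_zero.2 h
  have h2 := (QuotientAddGroup.eq_zero_iff _).1 h1
  rw [AddSubgroup.mem_addSubgroupOf] at h2
  obtain ⟨x, hx, hx2⟩ := h2
  have hyn : ∀ σ : Gal F, (p ^ n : ℕ) • y.1 σ n = 0 := by
    intro σ
    have h3 := pwp (Q := y.1 σ) (fun m => ((show IsSelV p W y.1 from y.2).1.2.1 σ m).1) 0 n
    rw [zero_add] at h3
    rw [h3]
    exact hy σ
  have h3 : ∀ σ : Gal F, act W σ.toAlgHom (Q n) - Q n = act W σ.toAlgHom (x n) - x n := by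
    intro σ
    have h4 : c.1 σ n - (p ^ n : ℕ) • y.1 σ n = act W σ.toAlgHom (x n) - x n := hx2 σ n
    rw [hyn, sub_zero, hc] at h4
    exact h4
  have hR : Rat W (Q n - x n) := by
    intro σ
    rw [map_sub, ← sub_eq_zero]
    have h4 := sub_eq_zero.2 (h3 σ)
    rw [← h4]
    abel
  have e1 : Q 0 = p ^ n • (Q n - x n) + x 0 := by
    have e2 := pwp hQ 0 n
    have e3 := pwp (Q := x) (fun m => (hx m).1) 0 n
    rw [zero_add] at e2 e3
    rw [smul_sub, e2, e3]
    abel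
  refine ⟨Q n - x n, x 0, hR, ?_, e1, (hx 0).2⟩
  intro σ
  have e2 : x 0 = Q 0 - p ^ n • (Q n - x n) := by
    rw [e1]
    abel
  rw [e2, map_sub, map_nsmul, hR σ, hP σ]

/-- a division sequence of a rational point -/
lemma kum_sel {W : WeierstrassCurve F} {Q : ℕ → Pt W (AlgebraicClosure F)}
    (hQ : ∀ n, p • Q (n + 1) = Q n) (hfix : Rat W (Q 0)) :
    IsSelV p W (fun σ n => act W σ.toAlgHom (Q n) - Q n) := by
  have hloc : ∀ (M : Type) [Field M] [Algebra F M], LocKum p W M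
      (fun σ n => act W σ.toAlgHom (Q n) - Q n) := by
    intro M _ _ ι
    refine ⟨fun n => act W ι (Q n), fun n => ?_, fun τ σ h n => ?_⟩
    · rw [← map_nsmul, hQ]
    · rw [map_sub, act_act', act_act']
      have e1 : ι.comp σ.toAlgHom = (τ.toAlgHom.restrictScalars F).comp ι :=
        AlgHom.ext fun x => (h x).symm
      rw [e1]
  refine ⟨⟨fun n => (lc_act' W (Q n)).sub (IsLocallyConstant.const (Q n)), fun σ n => ⟨?_, n, ?_⟩,
    fun σ τ n => ?_⟩, fun v => hloc _, fun v => hloc _⟩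
  · show p • (act W σ.toAlgHom (Q (n + 1)) - Q (n + 1)) = _
    rw [smul_sub, ← map_nsmul, hQ]
  · show (p ^ n : ℕ) • (act W σ.toAlgHom (Q n) - Q n) = 0
    have e1 := pwp hQ 0 n
    rw [zero_add] at e1
    rw [smul_sub, ← map_nsmul, e1, hfix σ, sub_self]
  · show act W (σ * τ).toAlgHom (Q n) - Q n = (act W σ.toAlgHom (Q n) - Q n) +
      act W σ.toAlgHom (act W τ.toAlgHom (Q n) - Q n)
    rw [map_sub, act_mul']
    abel

/-- the coordinates of an integral Selmer cocycle are coboundaries -/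
lemma cob_of_bnd {W : WeierstrassCurve F} {m : ℕ} (hB : BndS p m W) {c : Coch2 W}
    (hc : IsSelV p W c) (h0 : ∀ σ : Gal F, c σ 0 = 0) (n : ℕ) :
    ∃ Q : Pt W (AlgebraicClosure F), ∀ σ : Gal F, c σ n = act W σ.toAlgHom Q - Q := by
  have hpow : ∀ (σ : Gal F) (n k : ℕ), (p ^ k : ℕ) • c σ (n + k) = c σ n := fun σ n k =>
    pwp (Q := c σ) (fun m => (hc.1.2.1 σ m).1) n k
  obtain ⟨f, hf⟩ : ∃ f : Pool.Agent.TH841.NF.D.shaCoc W, f.1 = fun σ => c σ (n + m) :=
    ⟨⟨_, coord_sha hc (n + m)⟩, rfl⟩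
  have h1 : (p ^ (n + m) : ℕ) • f = 0 := by
    apply Subtype.ext
    rw [AddSubgroup.coe_nsmul, hf]
    funext σ
    show (p ^ (n + m) : ℕ) • c σ (n + m) = 0
    have h2 := hpow σ 0 (n + m)
    rw [zero_add] at h2
    rw [h2, h0]
  have h2 : (p ^ (n + m) : ℕ) • (QuotientAddGroup.mk f : Sha W) = 0 := by
    rw [← QuotientAddGroup.mk_nsmul, h1]
    rfl
  have h3 : (QuotientAddGroup.mk ((p ^ m : ℕ) • f) : Sha W) = 0 := by
    rw [QuotientAddGroup.mk_nsmul]
    exact hB _ _ h2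
  have h4 := (QuotientAddGroup.eq_zero_iff _).1 h3
  rw [AddSubgroup.mem_addSubgroupOf] at h4
  obtain ⟨P, hP⟩ := h4
  refine ⟨P, fun σ => ?_⟩
  rw [← hP σ, AddSubgroup.coe_nsmul, hf]
  exact (hpow σ n m).symm

/-- surjectivity of the Kummer map -/
theorem surj_kum {W : WeierstrassCurve F} {m : ℕ} (hB : BndS p m W)
    (hdiv : ∀ P : Pt W (AlgebraicClosure F), ∃ Q, p • Q = P)
    {x : H1f p W} (hx : Integral p W x) (n : ℕ) :
    ∃ (P : Pt W (AlgebraicClosure F)) (k y : H1f p W), Rat W P ∧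
      KumCls p W P k ∧ Integral p W y ∧ x = k + p ^ n • y := by
  obtain ⟨c, rfl, hc0⟩ := hx
  have hc : IsSelV p W c.1 := c.2
  obtain ⟨Q, hQ⟩ := cob_of_bnd hB hc hc0 n
  have hcp : ∀ (σ : Gal F) (m k : ℕ), p ^ k • c.1 σ (m + k) = c.1 σ m := fun σ m k =>
    pwp (Q := c.1 σ) (fun m => (hc.1.2.1 σ m).1) m k
  -- a division sequence of `Q`
  obtain ⟨R, hR0, hR⟩ : ∃ R : ℕ → Pt W (AlgebraicClosure F), R 0 = Q ∧
      ∀ m, p • R (m + 1) = R m := by
    choose d hd using hdiv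
    exact ⟨fun m => Nat.rec Q (fun _ P => d P) m, rfl, fun m => hd _⟩
  have hfix : Rat W (p ^ n • R 0) := by
    intro σ
    have h1 := hcp σ 0 n
    rw [zero_add, hQ σ, hc0 σ, smul_sub] at h1
    rw [hR0, map_nsmul]
    exact sub_eq_zero.1 h1
  have hS : ∀ m, p • (p ^ n • R (m + 1)) = p ^ n • R m := by
    intro m
    rw [smul_comm, hR]
  obtain ⟨kc, hkc⟩ : ∃ kc : selCocV p W, kc.1 = fun σ m =>
      act W σ.toAlgHom (p ^ n • R m) - p ^ n • R m := ⟨⟨_, kum_sel hS hfix⟩, rfl⟩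
  have hd : IsSelV p W (c.1 - kc.1) := (c - kc).2
  -- the shift
  have hy : IsSelV p W (fun σ m => (c.1 - kc.1) σ (n + m)) := by
    obtain ⟨⟨a1, a2, a3⟩, a4, a5⟩ := hd
    have hl : ∀ (M : Type) [Field M] [Algebra F M], LocKum p W M (c.1 - kc.1) →
        LocKum p W M (fun σ m => (c.1 - kc.1) σ (n + m)) := by
      intro M _ _ h ι
      obtain ⟨Q', h1, h2⟩ := h ι
      exact ⟨fun m => Q' (n + m), fun m => h1 (n + m), fun τ σ hτ m => h2 τ σ hτ (n + m)⟩
    exact ⟨⟨fun m => a1 (n + m), fun σ m => a2 σ (n + m), fun σ τ m => a3 σ τ (n + m)⟩,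
      fun v => hl _ (a4 v), fun v => hl _ (a5 v)⟩
  refine ⟨p ^ n • R 0, QuotientAddGroup.mk kc, QuotientAddGroup.mk ⟨_, hy⟩, hfix,
    ⟨kc, fun m => p ^ n • R m, rfl, rfl, hS, fun σ m => by rw [hkc]⟩, ⟨⟨_, hy⟩, rfl, fun σ => ?_⟩, ?_⟩
  · show c.1 σ (n + 0) - kc.1 σ (n + 0) = 0
    rw [hkc]
    have e1 := pwp hR 0 n
    rw [zero_add, hR0] at e1
    show c.1 σ n - (act W σ.toAlgHom (p ^ n • R n) - p ^ n • R n) = 0
    rw [e1, hQ σ, sub_self]
  · have e1 : c = kc + (p ^ n : ℕ) • (⟨_, hy⟩ : selCocV p W) := by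
      apply Subtype.ext
      funext σ m
      show c.1 σ m = kc.1 σ m + (p ^ n : ℕ) • ((c.1 - kc.1) σ (n + m))
      have e2 := pwp (Q := (c.1 - kc.1) σ) (fun m => (hd.1.2.1 σ m).1) m n
      rw [add_comm n m, e2]
      show c.1 σ m = kc.1 σ m + (c.1 σ m - kc.1 σ m)
      abel
    have e2 : (QuotientAddGroup.mk c : H1f p W) =
        QuotientAddGroup.mk (kc + (p ^ n : ℕ) • (⟨_, hy⟩ : selCocV p W)) :=
      congrArg (fun c : selCocV p W => (QuotientAddGroup.mk c : H1f p W)) e1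
    rw [e2, QuotientAddGroup.mk_add, QuotientAddGroup.mk_nsmul]
    rfl

/-- every rational point has a Kummer class -/
theorem ex_kum {W : WeierstrassCurve F} (hdiv : ∀ P : Pt W (AlgebraicClosure F), ∃ Q, p • Q = P)
    {P : Pt W (AlgebraicClosure F)} (hP : Rat W P) : ∃ k, KumCls p W P k := by
  obtain ⟨R, hR0, hR⟩ : ∃ R : ℕ → Pt W (AlgebraicClosure F), R 0 = P ∧
      ∀ m, p • R (m + 1) = R m := by
    choose d hd using hdiv
    exact ⟨fun m => Nat.rec P (fun _ P => d P) m, rfl, fun m => hd _⟩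
  exact ⟨QuotientAddGroup.mk ⟨_, kum_sel hR (by rw [hR0]; exact hP)⟩, ⟨_, kum_sel hR
    (by rw [hR0]; exact hP)⟩, R, rfl, hR0, hR, fun σ n => rfl⟩

end

end Pool.Agent.W2helper41.R
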