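import Mathlib
import Pool.Agent.W2helper55.TQ.Pl
import Pool.Agent.Y700.VC
import Pool.Agent.W2helper41.R.Kon

/-!
# Descent of the Tate-Shafarevich group along a normal extension: bounded exponents

The first section is copied from the file `W2helper55/TQ/H6` of helper55.
-/

set_option autoImplicit false
set_option linter.all false

namespace Pool.Agent.W2helper41.R

open WeierstrassCurve NumberField IsDedekindDomain
open Pool.Agent.TH841.SH.D (Pt act Gal Coch IsCoc IsCob LocTriv cob)
open Pool.Agent.TH841.NF.D (IsShaCoc shaCoc Sha)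
open Pool.Agent.Y700 (VR nonsing)
open Pool.Agent.W2helper55.TQ

section ci
variable {k k' : Type} [Field k] [Field k'] [Algebra k k'] {W : WeierstrassCurve k}
  {W' : WeierstrassCurve k'} {u r s t : k'}

theorem vrL (h : VR (W.baseChange k') W' u r s t) (L : Type) [Field L] [Algebra k L] [Algebra k' L]
    [IsScalarTower k k' L] : VR (W.baseChange L) (W'.baseChange L) (algebraMap k' L u)
      (algebraMap k' L r) (algebraMap k' L s) (algebraMap k' L t) := by
  have h1 := h.map (algebraMap k' L)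
  have e : (W.baseChange k').map (algebraMap k' L) = W.baseChange L := by
    show W.map ((algebraMap k' L).comp (algebraMap k k')) = W.map (algebraMap k L)
    rw [← IsScalarTower.algebraMap_eq]
  rw [e] at h1
  exact h1

theorem dL (hD : W'.Δ ≠ 0) (L : Type) [Field L] [Algebra k' L] :
    (W'.baseChange L).Δ ≠ 0 := by
  show (W'.map (algebraMap k' L)).Δ ≠ 0
  rw [WeierstrassCurve.map_Δ]
  exact (_root_.map_ne_zero _).2 hD

/-- the isomorphism on the points over `L` -/
noncomputable def eL (h : VR (W.baseChange k') W' u r s t) (hD : W'.Δ ≠ 0) (L : Type) [Field L]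
    [Algebra k L] [Algebra k' L] [IsScalarTower k k' L] : Pt W' L ≃+ Pt W L :=
  @VR.equiv L _ (Classical.decEq L) _ _ _ _ _ _ (vrL h L) (dL hD L)

theorem some_ext {F : Type} [Field F] {V : Affine F} {x y x' y' : F} (h : V.Nonsingular x y)
    (h' : V.Nonsingular x' y') (hx : x = x') (hy : y = y') :
    Affine.Point.some x y h = Affine.Point.some x' y' h' := by
  subst hx hy
  rfl

theorem eL_act (h : VR (W.baseChange k') W' u r s t) (hD : W'.Δ ≠ 0) {F L : Type} [Field F]
    [Algebra k F] [Algebra k' F] [IsScalarTower k k' F] [Field L] [Algebra k L] [Algebra k' L]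
    [IsScalarTower k k' L] (φ : F →ₐ[k'] L) (P : Pt W' F) :
    eL h hD L (act W' φ P) = act W (φ.restrictScalars k) (eL h hD F P) := by
  match P with
  | 0 =>
    have e1 : act W' φ (0 : Pt W' F) = 0 := map_zero _
    have e2 : eL h hD F (0 : Pt W' F) = 0 := map_zero _
    rw [e1, e2, map_zero, map_zero]
  | .some x y hn =>
    have hn1 : (W'.baseChange L).toAffine.Nonsingular (φ x) (φ y) :=
      (Affine.baseChange_nonsingular W' φ.injective ..).mpr hn
    have hn2 : (W.baseChange F).toAffine.Nonsingular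
        (algebraMap k' F u ^ 2 * x + algebraMap k' F r)
        (algebraMap k' F u ^ 3 * y + algebraMap k' F u ^ 2 * algebraMap k' F s * x +
          algebraMap k' F t) :=
      nonsing ((vrL h F).delta_ne (dL hD F)) ((vrL h F).eqn.2 hn.1)
    have hn3 : (W.baseChange L).toAffine.Nonsingular
        (algebraMap k' L u ^ 2 * φ x + algebraMap k' L r)
        (algebraMap k' L u ^ 3 * φ y + algebraMap k' L u ^ 2 * algebraMap k' L s * φ x +
          algebraMap k' L t) :=
      nonsing ((vrL h L).delta_ne (dL hD L)) ((vrL h L).eqn.2 hn1.1)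
    have e1 : eL h hD F (.some x y hn : Pt W' F) = .some _ _ hn2 := rfl
    have e3 : eL h hD L (.some (φ x) (φ y) hn1 : Pt W' L) = .some _ _ hn3 := rfl
    have e4 : act W' φ (.some x y hn : Pt W' F) = .some (φ x) (φ y) hn1 := rfl
    have e5 : act W (φ.restrictScalars k) (.some _ _ hn2 : Pt W F) = .some _ _
      ((Affine.baseChange_nonsingular W (φ.restrictScalars k).injective ..).mpr hn2) := rfl
    rw [e1, e4, e3, e5]
    refine some_ext _ _ ?_ ?_
    · rw [AlgHom.restrictScalars_apply, map_add, map_mul, map_pow, φ.commutes, φ.commutes]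
    · rw [AlgHom.restrictScalars_apply, map_add, map_add, map_mul, map_mul, map_mul, map_pow,
        map_pow, φ.commutes, φ.commutes, φ.commutes]

/-- the isomorphisms given by a change of variables -/
noncomputable def ciVR (h : VR (W.baseChange k') W' u r s t) (hD : W'.Δ ≠ 0) : CI W W' where
  e := fun L _ _ _ _ => eL h hD L
  ac := fun φ P => eL_act h hD φ P

end ci

open scoped NumberField.LiesOver in
/-- the homomorphisms of the completions at the infinite places exist (copied from helper55) -/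
theorem hinf (k k' : Type) [Field k] [NumberField k] [Field k'] [NumberField k'] [Algebra k k'] :
    HInf k k' := by
  intro w
  let v : InfinitePlace k := w.comap (algebraMap k k')
  haveI : w.LiesOver v := ⟨rfl⟩
  refine ⟨v, algebraMap v.Completion w.Completion, fun x => ?_⟩
  rw [← IsScalarTower.algebraMap_apply k v.Completion w.Completion]
  rfl

section main
variable {k k' : Type} [Field k] [Field k'] [Algebra k k'] {W : WeierstrassCurve k}
  {W' : WeierstrassCurve k'} (I : CI W W') (ε : AlgebraicClosure k ≃ₐ[k] AlgebraicClosure k')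

/-- a cocycle whose restriction is a coboundary is killed by the degree -/
theorem cob_of_resN [CharZero k] [Normal k k'] [Fintype (k' ≃ₐ[k] k')] {f : Coch W} (hf : IsCoc W f)
    (hr : IsCob W' (res I ε f)) : IsCob W (Fintype.card (k' ≃ₐ[k] k') • f) := by
  have : CharZero k' := charZero_of_injective_algebraMap (algebraMap k k').injective
  set E : AlgebraicClosure k →ₐ[k] AlgebraicClosure k' :=
    (ε : AlgebraicClosure k →ₐ[k] AlgebraicClosure k') with hE
  obtain ⟨Q', hQ'⟩ := hr
  set Q := I.e (AlgebraicClosure k') Q' with hQ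
  have h1 : ∀ τ : Gal k', act W E (f (cj ε τ)) = act W (τ.toAlgHom.restrictScalars k) Q - Q := by
    intro τ
    rw [hQ, ← I.ac, ← map_sub, ← hQ', res_apply]
  -- the cocycle on the larger group
  set h : (AlgebraicClosure k' ≃ₐ[k] AlgebraicClosure k') → Pt W (AlgebraicClosure k') := fun σ =>
    act W E (f (cjk ε σ)) - (act W (σ : AlgebraicClosure k' →ₐ[k] AlgebraicClosure k') Q - Q) with hh
  have hm : ∀ σ τ, h (σ * τ) = h σ + act W (σ : AlgebraicClosure k' →ₐ[k] AlgebraicClosure k') (h τ) := by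
    intro σ τ
    have e1 : act W ((σ * τ : AlgebraicClosure k' ≃ₐ[k] AlgebraicClosure k') :
        AlgebraicClosure k' →ₐ[k] AlgebraicClosure k') Q =
        act W (σ : AlgebraicClosure k' →ₐ[k] AlgebraicClosure k')
          (act W (τ : AlgebraicClosure k' →ₐ[k] AlgebraicClosure k') Q) := by
      rw [Pool.Agent.W2helper55.TQ.act_act]
      rfl
    simp only [hh]
    rw [cjk_mul, hf.2, map_add, act_cjk, e1, map_sub, map_sub]
    abel
  have h0 : ∀ τ : Gal k', h (τ.restrictScalars k) = 0 := by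
    intro τ
    simp only [hh]
    rw [sub_eq_zero]
    exact h1 τ
  -- `h` depends on the restriction only
  have hres : ∀ σ σ' : AlgebraicClosure k' ≃ₐ[k] AlgebraicClosure k',
      (∀ x : k', σ (algebraMap k' _ x) = σ' (algebraMap k' _ x)) → h σ = h σ' := by
    intro σ σ' hx
    have hc : ∀ x : k', (σ'⁻¹ * σ) (algebraMap k' (AlgebraicClosure k') x) =
        algebraMap k' (AlgebraicClosure k') x := by
      intro x
      rw [AlgEquiv.mul_apply, hx, ← AlgEquiv.mul_apply, inv_mul_cancel, AlgEquiv.one_apply]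
    have h2 := h0 (AlgEquiv.ofRingEquiv (f := (σ'⁻¹ * σ).toRingEquiv) hc)
    have h3 : (AlgEquiv.ofRingEquiv (f := (σ'⁻¹ * σ).toRingEquiv) hc : Gal k').restrictScalars k =
        σ'⁻¹ * σ := by
      apply AlgEquiv.ext
      intro x
      rfl
    rw [h3] at h2
    have h4 := hm σ' (σ'⁻¹ * σ)
    rw [h2, map_zero, add_zero, mul_inv_cancel_left] at h4
    exact h4
  -- lifts
  obtain ⟨s, hs⟩ : ∃ s : (k' ≃ₐ[k] k') → (AlgebraicClosure k' ≃ₐ[k] AlgebraicClosure k'),
      ∀ g (x : k'), s g (algebraMap k' _ x) = algebraMap k' _ (g x) := by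
    have h2 : ∀ g : k' ≃ₐ[k] k', ∃ σ : AlgebraicClosure k' ≃ₐ[k] AlgebraicClosure k',
        ∀ x : k', σ (algebraMap k' _ x) = algebraMap k' _ (g x) := by
      intro g
      haveI : Algebra.IsAlgebraic k (AlgebraicClosure k') := Algebra.IsAlgebraic.trans k k' _
      obtain ⟨σ, hσ⟩ := AlgEquiv.restrictNormalHom_surjective (F := k) (K₁ := k')
        (E := AlgebraicClosure k') g
      refine ⟨σ, fun x => ?_⟩
      have h3 := σ.restrictNormal_commutes k' x
      have h4 : σ.restrictNormal k' = g := hσ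
      rw [h4] at h3
      exact h3.symm
    choose s hs using h2
    exact ⟨s, hs⟩
  obtain ⟨T, hT⟩ : ∃ T, T = ∑ g, h (s g) := ⟨_, rfl⟩
  have hTσ : ∀ σ : AlgebraicClosure k' ≃ₐ[k] AlgebraicClosure k',
      act W (σ : AlgebraicClosure k' →ₐ[k] AlgebraicClosure k') T =
        T - Fintype.card (k' ≃ₐ[k] k') • h σ := by
    intro σ
    have h2 : ∀ g : k' ≃ₐ[k] k', act W (σ : AlgebraicClosure k' →ₐ[k] AlgebraicClosure k') (h (s g)) =
        h (s (σ.restrictNormal k' * g)) - h σ := by
      intro g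
      have h3 := hm σ (s g)
      have h4 : h (σ * s g) = h (s (σ.restrictNormal k' * g)) := by
        apply hres
        intro x
        rw [AlgEquiv.mul_apply, hs, hs, AlgEquiv.mul_apply]
        exact (σ.restrictNormal_commutes k' (g x)).symm
      rw [← h4, h3, add_sub_cancel_left]
    rw [hT, map_sum, Finset.sum_congr rfl fun g _ => h2 g, Finset.sum_sub_distrib,
      Finset.sum_const, Finset.card_univ]
    congr 1
    exact Equiv.sum_comp (Equiv.mulLeft (σ.restrictNormal k')) (fun g => h (s g))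
  -- back
  set S : AlgebraicClosure k' →ₐ[k] AlgebraicClosure k := (ε.symm : AlgebraicClosure k' →ₐ[k] AlgebraicClosure k) with hS
  obtain ⟨N, hN⟩ : ∃ N, N = Fintype.card (k' ≃ₐ[k] k') := ⟨_, rfl⟩
  rw [← hN] at hTσ ⊢
  obtain ⟨U, hU⟩ : ∃ U, U = N • Q - T := ⟨_, rfl⟩
  have e1 : ∀ σ : AlgebraicClosure k' ≃ₐ[k] AlgebraicClosure k', act W E (f (cjk ε σ)) = h σ +
      (act W (σ : AlgebraicClosure k' →ₐ[k] AlgebraicClosure k') Q - Q) := by
    intro σ
    simp only [hh]
    abel
  clear_value h
  have h5 : ∀ σ : AlgebraicClosure k' ≃ₐ[k] AlgebraicClosure k', N • act W E (f (cjk ε σ)) =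
      act W (σ : AlgebraicClosure k' →ₐ[k] AlgebraicClosure k') U - U := by
    intro σ
    rw [e1, hU, map_sub, map_nsmul, hTσ, smul_add, smul_sub]
    abel
  refine ⟨act W S U, fun σ => ?_⟩
  apply act_inj W E
  have e2 : cjk ε ((ε.symm.trans σ).trans ε) = σ := by
    apply AlgEquiv.ext
    intro x
    show ε.symm (ε (σ (ε.symm (ε x)))) = σ x
    rw [ε.symm_apply_apply, ε.symm_apply_apply]
  have e3 := h5 ((ε.symm.trans σ).trans ε)
  rw [e2, ← map_nsmul] at e3
  show act W E (N • f σ) = _
  rw [e3, map_sub, Pool.Agent.W2helper55.TQ.act_act, Pool.Agent.W2helper55.TQ.act_act,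
    Pool.Agent.W2helper55.TQ.act_act]
  have e4 : E.comp S = AlgHom.id k (AlgebraicClosure k') := by
    apply AlgHom.ext
    intro x
    show ε (ε.symm x) = x
    rw [ε.apply_symm_apply]
  have e5 : act W (AlgHom.id k (AlgebraicClosure k')) U = U := by
    rcases U with _ | ⟨x, y, hxy⟩ <;> rfl
  rw [e4, e5]
  rfl

end main

section
variable {k k' : Type} [Field k] [NumberField k] [Field k'] [NumberField k'] [Algebra k k']
  {W : WeierstrassCurve k} {W' : WeierstrassCurve k'}

include k' in
/-- **descent**: the kernel of the restriction is killed by the degree -/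
theorem descentN [Normal k k'] (I : CI W W') {p m : ℕ} (hB : BndS p m W') (j : ℕ) (x : Sha W)
    (hx : (p ^ j : ℕ) • x = 0) :
    (Nat.card (k' ≃ₐ[k] k') * p ^ m) • x = 0 := by
  haveI : Algebra.IsAlgebraic k (AlgebraicClosure k') := Algebra.IsAlgebraic.trans k k' _
  haveI : IsAlgClosure k (AlgebraicClosure k') := ⟨inferInstance, inferInstance⟩
  let ε : AlgebraicClosure k ≃ₐ[k] AlgebraicClosure k' :=
    IsAlgClosure.equiv k (AlgebraicClosure k) (AlgebraicClosure k')
  haveI : FiniteDimensional k k' := Module.Finite.of_restrictScalars_finite ℚ k k'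
  let _ : Fintype (k' ≃ₐ[k] k') := Fintype.ofFinite _
  rw [Nat.card_eq_fintype_card]
  obtain ⟨⟨f, hf⟩, rfl⟩ := QuotientAddGroup.mk_surjective x
  have hf' : IsShaCoc W f := hf
  have h1 : ((p ^ j : ℕ) • (⟨f, hf⟩ : shaCoc W)) ∈ (cob W).addSubgroupOf (shaCoc W) := by
    rw [← QuotientAddGroup.eq_zero_iff]
    exact hx
  have h1' : IsCob W ((p ^ j : ℕ) • f) := h1
  -- the restriction
  have hr : IsShaCoc W' (res I ε f) := res_sha I ε (hinf k k') hf'
  have hsm : ∀ N : ℕ, N • res I ε f = res I ε (N • f) := by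
    intro N
    funext τ
    apply (I.e (AlgebraicClosure k')).injective
    have e2 : (N • res I ε f) τ = N • (res I ε f τ) := rfl
    have e3 : (N • f) (cj ε τ) = N • f (cj ε τ) := rfl
    rw [e2, map_nsmul, res_apply, res_apply, e3, map_nsmul]
  have h2 : (p ^ m : ℕ) • (QuotientAddGroup.mk (⟨res I ε f, hr⟩ : shaCoc W') :
      shaCoc W' ⧸ (cob W').addSubgroupOf (shaCoc W')) = 0 := by
    refine hB j _ ?_
    have h3 : ((p ^ j : ℕ) • (⟨res I ε f, hr⟩ : shaCoc W')) ∈ (cob W').addSubgroupOf (shaCoc W') := by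
      change IsCob W' ((p ^ j : ℕ) • res I ε f)
      rw [hsm]
      exact res_cob I ε h1'
    exact (QuotientAddGroup.eq_zero_iff _).2 h3
  have h4 : IsCob W' ((p ^ m : ℕ) • res I ε f) := (QuotientAddGroup.eq_zero_iff
    ((p ^ m : ℕ) • (⟨res I ε f, hr⟩ : shaCoc W'))).1 h2
  rw [hsm] at h4
  have h5 : IsCoc W ((p ^ m : ℕ) • f) := ((p ^ m : ℕ) • (⟨f, hf⟩ : shaCoc W)).2.1
  have h6 := cob_of_resN I ε h5 h4
  refine (QuotientAddGroup.eq_zero_iff ((Fintype.card (k' ≃ₐ[k] k') * p ^ m) •
    (⟨f, hf⟩ : shaCoc W))).2 ?_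
  change IsCob W ((Fintype.card (k' ≃ₐ[k] k') * p ^ m) • f)
  rw [mul_smul]
  exact h6

/-- **descent** -/
theorem bnd_down [Normal k k'] (I : CI W W') {p : ℕ} (hp : p.Prime) (hB : ∃ m, BndS p m W') :
    ∃ m, BndS p m W := by
  obtain ⟨m, hB⟩ := hB
  obtain ⟨N, hN⟩ : ∃ N, N = Nat.card (k' ≃ₐ[k] k') := ⟨_, rfl⟩
  haveI : FiniteDimensional k k' := Module.Finite.of_restrictScalars_finite ℚ k k'
  have hN0 : N ≠ 0 := by
    rw [hN]
    exact Nat.card_pos.ne'
  refine ⟨m + N.factorization p, fun j x hx => ?_⟩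
  have h1 := descentN I hB j x hx
  rw [← hN] at h1
  have h2 : Nat.Coprime (p ^ j) (N / p ^ N.factorization p) :=
    Nat.Coprime.pow_left _ (Nat.coprime_ordCompl hp hN0)
  have h3 : N * p ^ m = p ^ (m + N.factorization p) * (N / p ^ N.factorization p) := by
    conv_lhs => rw [← Nat.ordProj_mul_ordCompl_eq_self N p]
    rw [pow_add]
    ring
  rw [h3, mul_comm, mul_smul] at h1
  obtain ⟨a, b, hab⟩ := Nat.isCoprime_iff_coprime.2 h2
  obtain ⟨y, hy⟩ : ∃ y, y = (p ^ (m + N.factorization p) : ℕ) • x := ⟨_, rfl⟩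
  rw [← hy] at h1 ⊢
  have h4 : (p ^ j : ℕ) • y = 0 := by
    rw [hy, smul_comm, hx, smul_zero]
  have h5 := congrArg (fun z : ℤ => z • y) hab
  simp only [add_smul, mul_smul, one_smul, natCast_zsmul] at h5
  rw [h4, h1, smul_zero, smul_zero, add_zero] at h5
  exact h5.symm

end

section
variable {k k' : Type} [Field k] [Field k'] [Algebra k k'] {W : WeierstrassCurve k}
  {W' : WeierstrassCurve k'} {u r s t : k'}

theorem bc_self {F : Type} [Field F] (W : WeierstrassCurve F) : W.baseChange F = W := by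
  rw [WeierstrassCurve.baseChange, Algebra.algebraMap_self]
  exact W.map_id

open scoped Classical in
/-- the points over the smaller field -/
theorem pts_inj (h : VR (W.baseChange k') W' u r s t) (hD : W'.Δ ≠ 0) :
    ∃ φ : W.toAffine.Point →+ W'.toAffine.Point, Function.Injective φ := by
  have e3 : ∀ (F : Type) [Field F] (V : WeierstrassCurve F),
      ∃ φ : V.toAffine.Point ≃+ (V.baseChange F).toAffine.Point, True := by
    intro F _ V
    rw [bc_self]
    exact ⟨AddEquiv.refl _, trivial⟩
  obtain ⟨φ1, -⟩ := e3 k W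
  obtain ⟨φ2, -⟩ := e3 k' W'
  let φ : Pt W k →+ Pt W' k' :=
    (((ciVR h hD).e k').symm : Pt W k' →+ Pt W' k').comp (act W (Algebra.ofId k k'))
  have hφ : Function.Injective φ :=
    ((ciVR h hD).e k').symm.injective.comp (act_inj W (Algebra.ofId k k'))
  refine ⟨(φ2.symm : (W'.baseChange k').toAffine.Point →+ W'.toAffine.Point).comp
    (AddMonoidHom.comp (N := (W.baseChange k).toAffine.Point) φ
      (φ1 : W.toAffine.Point →+ (W.baseChange k).toAffine.Point)), ?_⟩
  exact φ2.symm.injective.comp (hφ.comp φ1.injective)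

/-- divisibility over the algebraic closure -/
theorem div_down [Algebra.IsAlgebraic k k'] (I : CI W W') {p : ℕ}
    (hdiv : ∀ P : Pt W' (AlgebraicClosure k'), ∃ Q, p • Q = P) (P : Pt W (AlgebraicClosure k)) :
    ∃ Q, p • Q = P := by
  haveI : Algebra.IsAlgebraic k (AlgebraicClosure k') := Algebra.IsAlgebraic.trans k k' _
  haveI : IsAlgClosure k (AlgebraicClosure k') := ⟨inferInstance, inferInstance⟩
  let ε : AlgebraicClosure k ≃ₐ[k] AlgebraicClosure k' :=
    IsAlgClosure.equiv k (AlgebraicClosure k) (AlgebraicClosure k')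
  set E : AlgebraicClosure k →ₐ[k] AlgebraicClosure k' :=
    (ε : AlgebraicClosure k →ₐ[k] AlgebraicClosure k') with hE
  set S : AlgebraicClosure k' →ₐ[k] AlgebraicClosure k :=
    (ε.symm : AlgebraicClosure k' →ₐ[k] AlgebraicClosure k) with hS
  obtain ⟨Q, hQ⟩ := hdiv ((I.e (AlgebraicClosure k')).symm (act W E P))
  refine ⟨act W S (I.e (AlgebraicClosure k') Q), ?_⟩
  apply act_inj W E
  rw [map_nsmul, Pool.Agent.W2helper55.TQ.act_act]
  have e4 : E.comp S = AlgHom.id k (AlgebraicClosure k') := by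
    apply AlgHom.ext
    intro x
    show ε (ε.symm x) = x
    rw [ε.apply_symm_apply]
  have e5 : ∀ U, act W (AlgHom.id k (AlgebraicClosure k')) U = U := by
    intro U
    rcases U with _ | ⟨x, y, hxy⟩ <;> rfl
  rw [e4, e5, ← map_nsmul, hQ, AddEquiv.apply_symm_apply]

end

end Pool.Agent.W2helper41.R
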