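import Pool.Agent.W2helper41.R.ShF
import Pool.Agent.W2helper41.R.Dwn

/-!
# The regulators over the number fields in the infinite extension
-/

set_option autoImplicit false
set_option linter.unusedSectionVars false
set_option linter.unusedVariables false

open Finset NumberField WeierstrassCurve

namespace Pool.Agent.W2helper41.R

open scoped Classical

open Pool.Agent.Y682.XD (mq RR)

open Pool.Agent.Y682 (gc NCl gc_isT exists_half)

open Pool.Agent.Y700 (VR)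

open Pool.Agent.W2helper41.X (Ine Spl mat)

open Pool.Agent.W2helper41.M (Lay Lay_le Lay_odd Om mqN)

open Pool.Agent.W2helper41.Q (OmC Adm)

open Pool.Agent.W2helper55.TQ (CI)

open Pool.Agent.TH841.NF.D (Sha)

open Pool.Agent.TH841.SH.D (Pt act Gal)

open Pool.Agent.Y667.BKP (H1f)

open Pool.Agent.W97.MT (E14)

/-- `X_0(14)` -/
def cu (F : Type) [Field F] : WeierstrassCurve F := ⟨1, 0, 1, 4, -6⟩

lemma vr_cu (F : Type) [Field F] [CharZero F] : VR (gc 13 128 F) (cu F) 2 (-4) 1 4 := by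
  refine ⟨two_ne_zero, ?_, ?_, ?_, ?_, ?_⟩ <;> simp only [gc, cu] <;> push_cast <;> norm_num

lemma cu_delta (F : Type) [Field F] [CharZero F] : (cu F).Δ ≠ 0 := by
  have e : (cu F).Δ = -21952 := by
    unfold cu WeierstrassCurve.Δ WeierstrassCurve.b₂ WeierstrassCurve.b₄ WeierstrassCurve.b₆
      WeierstrassCurve.b₈
    norm_num
  rw [e]
  norm_num

lemma cu_base (F : Type) [Field F] : Pool.Agent.Y682.XF.base E14 F = cu F := by
  unfold Pool.Agent.Y682.XF.base E14 cu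
  ext <;> simp [WeierstrassCurve.map]

/-- divisibility -/
lemma div_gc {F : Type} [Field F] [NumberField F] {D : ℤ} (hD : D ≠ 0)
    (P : Pt (gc (13 * D) (128 * D ^ 2) F) (AlgebraicClosure F)) : ∃ Q, 2 • Q = P := by
  have hT := gc_isT (A := 13 * D) (B := 128 * D ^ 2) (mul_ne_zero (by norm_num) (pow_ne_zero 2 hD))
    (by
      have h1 : (13 * D) ^ 2 - 4 * (128 * D ^ 2) = -343 * D ^ 2 := by ring
      rw [h1]
      exact mul_ne_zero (by norm_num) (pow_ne_zero 2 hD)) F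
  obtain ⟨Q, hQ⟩ := exists_half hT P
  exact ⟨Q, by rw [two_nsmul, ← hQ]⟩

lemma div_cu {F : Type} [Field F] [NumberField F] (P : Pt (cu F) (AlgebraicClosure F)) :
    ∃ Q, 2 • Q = P := by
  let I := Pool.Agent.Y655.XT.isoVR (vr_cu F) (cu_delta F)
  obtain ⟨Q, hQ⟩ := div_gc (F := F) (D := 1) one_ne_zero (I.e (AlgebraicClosure F) P)
  refine ⟨(I.e (AlgebraicClosure F)).symm Q, ?_⟩
  apply (I.e (AlgebraicClosure F)).injective
  rw [map_nsmul, AddEquiv.apply_symm_apply]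
  exact hQ

/-- the regulator is an isomorphism -/
def Reg {k : Type} [Field k] [NumberField k] (W : WeierstrassCurve k) : Prop :=
  Module.Finite ℤ W.toAffine.Point ∧ (∃ m, BndS 2 m W) ∧
  (∀ P, Rat W P → ∃ x, KumCls 2 W P x) ∧ (∀ x : H1f 2 W, ∃ m : ℕ, Integral 2 W (2 ^ m • x)) ∧
  (∀ (x : H1f 2 W) (n : ℕ), Integral 2 W x → ∃ (P : Pt W (AlgebraicClosure k)) (z y : H1f 2 W),
    Rat W P ∧ KumCls 2 W P z ∧ Integral 2 W y ∧ x = z + 2 ^ n • y) ∧
  ∀ (P : Pt W (AlgebraicClosure k)) (z y : H1f 2 W) (n : ℕ), Rat W P → KumCls 2 W P z →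
    Integral 2 W y → z = 2 ^ n • y → ∃ R T : Pt W (AlgebraicClosure k), Rat W R ∧ Rat W T ∧
      P = 2 ^ n • R + T ∧ ∃ m : ℕ, 2 ^ m • T = 0

theorem reg_mk {k : Type} [Field k] [NumberField k] {W : WeierstrassCurve k}
    (hfg : Module.Finite ℤ W.toAffine.Point)
    (hdiv : ∀ P : Pt W (AlgebraicClosure k), ∃ Q, 2 • Q = P) (hB : ∃ m, BndS 2 m W) : Reg W := by
  obtain ⟨m, hm⟩ := hB
  exact ⟨hfg, ⟨m, hm⟩, fun P hP => ex_kum hdiv hP, integral_of,
    fun x n hx => surj_kum hm hdiv hx n, fun P z y n hP hz hy h => inj_kum hP hz hy h⟩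

/-- the curve over a smaller field -/
theorem reg_down {k F : Type} [Field k] [NumberField k] [Field F] [NumberField F] [Algebra k F]
    [Normal k F] {W : WeierstrassCurve k} {u r s t : F} (h : VR (W.baseChange F) (cu F) u r s t)
    (hB : ∃ m, BndS 2 m (cu F)) : Reg W := by
  have : FiniteDimensional k F := Module.Finite.of_restrictScalars_finite ℚ k F
  refine reg_mk ?_ (div_down (ciVR h (cu_delta F)) div_cu)
    (bnd_down (ciVR h (cu_delta F)) Nat.prime_two hB)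
  have h1 : Module.Finite ℤ (cu F).toAffine.Point := by
    rw [← cu_base]
    exact Pool.Agent.W2helper41.Q.fgE F
  obtain ⟨φ, hφ⟩ := pts_inj h (cu_delta F)
  exact Module.Finite.of_injective φ.toIntLinearMap hφ

/-- both sides are zero -/
def Zer {k : Type} [Field k] [NumberField k] (W : WeierstrassCurve k) : Prop :=
  Finite W.toAffine.Point ∧ (∃ m, BndS 2 m W) ∧ ∀ x : H1f 2 W, x = 0

theorem zero_down {k F : Type} [Field k] [NumberField k] [Field F] [NumberField F] [Algebra k F]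
    [Normal k F] {W : WeierstrassCurve k} {u r s t : F} (h : VR (W.baseChange F) (cu F) u r s t)
    (hfin : Finite (cu F).toAffine.Point) (hB : ∃ m, BndS 2 m (cu F)) : Zer W := by
  have : FiniteDimensional k F := Module.Finite.of_restrictScalars_finite ℚ k F
  obtain ⟨φ, hφ⟩ := pts_inj h (cu_delta F)
  have h1 : Finite W.toAffine.Point := Finite.of_injective φ hφ
  obtain ⟨m, hm⟩ := bnd_down (ciVR h (cu_delta F)) Nat.prime_two hB
  exact ⟨h1, ⟨m, hm⟩, Pool.Agent.Y667.BKP.h1f_zero Nat.prime_two h1 m hm⟩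

lemma bnd_cu {F : Type} [Field F] [NumberField F] :
    (∃ m, BndS 2 m (gc 13 128 F)) ↔ ∃ m, BndS 2 m (cu F) := by
  let I := Pool.Agent.Y655.XT.isoVR (vr_cu F) (cu_delta F)
  exact ⟨fun ⟨m, h⟩ => ⟨m, BndS.equiv I.sha h⟩, fun ⟨m, h⟩ => ⟨m, BndS.equiv I.sha.symm h⟩⟩

/-- the twists over the rational numbers -/
theorem twist_down {F : Type} [Field F] [NumberField F] (hF : Abl F) {D : ℤ} (hD : D ≠ 0) {z : F}
    (hz : z ^ 2 = (D : F)) (hB : ∃ m, BndS 2 m (gc 13 128 F)) :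
    ∃ m, BndS 2 m (gc (13 * D) (128 * D ^ 2) ℚ) := by
  have hg : IsGalois ℚ F := hF.1
  have hz0 : z ≠ 0 := by
    rintro rfl
    rw [zero_pow two_ne_zero] at hz
    exact hD (by exact_mod_cast hz.symm)
  have h : VR ((gc (13 * D) (128 * D ^ 2) ℚ).baseChange F) (gc 13 128 F) z 0 0 0 := by
    refine ⟨hz0, ?_, ?_, ?_, ?_, ?_⟩
    · simp [gc, WeierstrassCurve.baseChange, WeierstrassCurve.map]
    · simp only [gc, WeierstrassCurve.baseChange, WeierstrassCurve.map]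
      rw [hz]
      push_cast
      simp
      ring
    · simp [gc, WeierstrassCurve.baseChange, WeierstrassCurve.map]
    · simp only [gc, WeierstrassCurve.baseChange, WeierstrassCurve.map]
      rw [show z ^ 4 = (z ^ 2) ^ 2 by ring, hz]
      push_cast
      simp
      ring
    · simp [gc, WeierstrassCurve.baseChange, WeierstrassCurve.map]
  have hD1 : (gc 13 128 F).Δ ≠ 0 := by
    have := gc_delta (k := F) (D := 1) one_ne_zero
    simpa using this
  exact bnd_down (ciVR h hD1) Nat.prime_two hB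

/-- the twist over the rational numbers: the regulator -/
theorem reg_twist {D : ℤ} (hD : D ≠ 0) (hB : ∃ m, BndS 2 m (gc (13 * D) (128 * D ^ 2) ℚ)) :
    Reg (gc (13 * D) (128 * D ^ 2) ℚ) := by
  refine reg_mk ?_ (div_gc hD) hB
  have hT := gc_isT (A := 13 * D) (B := 128 * D ^ 2) (mul_ne_zero (by norm_num) (pow_ne_zero 2 hD))
    (by
      have h1 : (13 * D) ^ 2 - 4 * (128 * D ^ 2) = -343 * D ^ 2 := by ring
      rw [h1]
      exact mul_ne_zero (by norm_num) (pow_ne_zero 2 hD)) ℚ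
  exact Pool.Agent.Y682.fg_MP hT

/-! ## The fields -/

lemma mq_fd (S : Finset ℤ) : FiniteDimensional ℚ (mq S) := by
  have hfin : Set.Finite {z : ℂ | ∃ d ∈ S, z ^ 2 = (d : ℂ)} := by
    choose r hr using fun d : ℤ => IsAlgClosed.exists_pow_nat_eq (d : ℂ) (n := 2) (by norm_num)
    refine ((S.finite_toSet.image r).union (S.finite_toSet.image fun d => -r d)).subset ?_
    rintro z ⟨d, hd, hz⟩
    rcases sq_eq_sq_iff_eq_or_eq_neg.1 (hz.trans (hr d).symm) with h | h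
    · exact Or.inl ⟨d, hd, h.symm⟩
    · exact Or.inr ⟨d, hd, h.symm⟩
  have : Finite {z : ℂ | ∃ d ∈ S, z ^ 2 = (d : ℂ)} := hfin.to_subtype
  refine IntermediateField.finiteDimensional_adjoin ?_
  rintro z ⟨d, hd, hz⟩
  exact ⟨Polynomial.X ^ 2 - Polynomial.C (d : ℚ), Polynomial.monic_X_pow_sub_C _ (by norm_num), by
    rw [Polynomial.eval₂_sub, Polynomial.eval₂_pow, Polynomial.eval₂_X,
      Polynomial.eval₂_C, hz, map_intCast, sub_self]⟩

lemma comp_nf (S : Finset ℤ) (n : ℕ) :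
    NumberField (mq S ⊔ Lay (n + 1) : IntermediateField ℚ ℂ) := by
  have h1 := mq_fd S
  have h2 := (Lay_odd n).1
  have h3 : FiniteDimensional ℚ (mq S ⊔ Lay (n + 1) : IntermediateField ℚ ℂ) :=
    IntermediateField.finiteDimensional_sup _ _
  exact { to_charZero := inferInstance, to_finiteDimensional := h3 }

lemma lay_le_gen {T : Set ℂ} (n : ℕ)
    (hT : {z : ℂ | ∃ (n : ℕ) (ζ : ℂ), ζ ^ 3 ^ n = 1 ∧ z = ζ + ζ⁻¹} ⊆ T) :
    Lay n ≤ IntermediateField.adjoin ℚ T := by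
  unfold Lay
  rw [IntermediateField.adjoin_le_iff]
  rintro z ⟨ζ, h1, h2⟩
  exact IntermediateField.subset_adjoin ℚ _ (hT ⟨n, ζ, h1, h2⟩)

lemma mq_le_OmC {C : ℕ → Prop} {A : Finset ℕ} (hA : ∀ q ∈ A, C q) (n : ℕ) :
    mqN A ⊔ Lay (n + 1) ≤ OmC C := by
  refine sup_le ?_ (lay_le_gen _ Set.subset_union_right)
  unfold mqN
  rw [IntermediateField.adjoin_le_iff]
  rintro z ⟨q, hq, hz⟩
  exact IntermediateField.subset_adjoin ℚ _ (Or.inl ⟨q, hA q hq, hz⟩)

lemma mq_le_Om {D : ℕ} {P A : Finset ℕ}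
    (hA : ∀ q ∈ A, Ine q ∧ ∀ p ∈ P, IsSquare ((q : ℕ) : ZMod p)) (n : ℕ) :
    mqN (insert D A) ⊔ Lay (n + 1) ≤ Om D P := by
  refine sup_le ?_ (lay_le_gen _ fun z hz => Or.inr (Or.inr hz))
  unfold mqN
  rw [IntermediateField.adjoin_le_iff]
  rintro z ⟨q, hq, hz⟩
  rcases mem_insert.1 hq with rfl | hq
  · exact IntermediateField.subset_adjoin ℚ _ (Or.inl hz)
  · exact IntermediateField.subset_adjoin ℚ _ (Or.inr (Or.inl ⟨q, (hA q hq).1, (hA q hq).2, hz⟩))

lemma abl_omega (F : IntermediateField ℚ ℂ) [NumberField F] (hF : F ≤ OmC Adm) : Abl F := by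
  obtain ⟨R, hR⟩ := Pool.Agent.W2helper41.Q.omega_psi F hF
  exact hR.1

lemma adm_gd {q : ℕ} (h : Adm q) : Gd (q : ℤ) := by
  obtain ⟨h1, h2, h3⟩ := h
  refine ⟨?_, fun p hp hpd => ?_⟩
  · rw [Int.odd_iff]
    omega
  · have h4 : p = q := (Nat.prime_dvd_prime_iff_eq hp h1).1 (Int.natCast_dvd_natCast.1 hpd)
    rw [h4]
    exact h3

/-- **the reduction to the twists over the rational numbers** -/
theorem bnd_omega (F : IntermediateField ℚ ℂ) [NumberField F] (hF : F ≤ OmC Adm)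
    (hyp : ∀ A : Finset ℕ, (∀ q ∈ A, Adm q) → (∃ z ∈ F, z ^ 2 = ((∏ q ∈ A, q : ℕ) : ℂ)) →
      ∃ m, BndS 2 m (gc (13 * ((∏ q ∈ A, q : ℕ) : ℤ)) (128 * ((∏ q ∈ A, q : ℕ) : ℤ) ^ 2) ℚ)) :
    ∃ m, BndS 2 m (gc 13 128 F) := by
  obtain ⟨A, n, hA, hFA⟩ := Pool.Agent.W2helper41.Q.le_OmC F hF
  obtain ⟨S, hS⟩ : ∃ S, S = A.map (Nat.castEmbedding (R := ℤ)) := ⟨_, rfl⟩
  have hmq : mqN A = mq S := by rw [hS]; exact Pool.Agent.W2helper41.Y.mq_nat A
  rw [hmq] at hFA
  have hG := comp_nf S n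
  have hGo : mq S ⊔ Lay (n + 1) ≤ OmC Adm := by
    rw [← hmq]
    exact mq_le_OmC hA n
  refine bnd_F n S ?_ (mq S ⊔ Lay (n + 1)) F rfl (abl_omega _ hGo) hFA ?_
  · intro d hd
    rw [hS] at hd
    obtain ⟨k, hk, rfl⟩ := mem_map.1 hd
    exact adm_gd (hA k hk)
  · intro B hB hz
    rw [hS] at hB
    obtain ⟨B', hB', rfl⟩ := subset_map_iff.1 hB
    have e : ∏ d ∈ B'.map (Nat.castEmbedding (R := ℤ)), d = ((∏ q ∈ B', q : ℕ) : ℤ) := by
      rw [prod_map, Nat.cast_prod]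
      rfl
    rw [e] at hz ⊢
    refine hyp B' (fun q hq => hA q (hB' hq)) ?_
    obtain ⟨z, hz1, hz2⟩ := hz
    exact ⟨z, hz1, by rw [hz2, Int.cast_natCast]⟩

end Pool.Agent.W2helper41.R
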