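import Pool.Agent.W2helper41.R.Fin

/-!
# The regulators over the number fields in the infinite extension: the main theorems
-/

set_option autoImplicit false
set_option linter.unusedSectionVars false
set_option linter.unusedVariables false

open Finset NumberField WeierstrassCurve

namespace Pool.Agent.W2helper41.R

open scoped Classical

open Pool.Agent.Y682.XD (mq RR)

open Pool.Agent.Y682 (gc)

open Pool.Agent.Y700 (VR)

open Pool.Agent.W2helper41.X (Ine Spl mat)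

open Pool.Agent.W2helper41.M (Lay Lay_le Lay_odd Om mqN)

open Pool.Agent.W2helper41.Q (OmC Adm)

open Pool.Agent.TH841.NF.D (Sha)

open Pool.Agent.W97.MT (E14)

lemma bnd_of_two {k : Type} [Field k] [NumberField k] {W : WeierstrassCurve k}
    (h : ∀ x : Sha W, 2 • x = 0 → x = 0) : BndS 2 0 W := by
  intro j
  induction j with
  | zero =>
    intro x hx
    exact hx
  | succ j ih =>
    intro x hx
    apply ih
    apply h
    rw [smul_smul, mul_comm, ← pow_succ]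
    exact hx

/-- the regular twists -/
lemma bnd_reg {d : ℕ} (h : Pool.Agent.W2helper41.Y.Reg d) :
    BndS 2 0 (gc (13 * (d : ℤ)) (128 * (d : ℤ) ^ 2) ℚ) := by
  have h4 := h.four
  obtain ⟨T, P, hT, hP, hc, hd, hdet⟩ := h
  have h1 := ((Pool.Agent.W2helper41.X.crit hP hT).1 hdet).2
  rw [← hd] at h1
  have hM : ((d : ℕ) : ℤ) % 4 = 1 := by omega
  have hvr := Pool.Agent.Y665.XF.vr_WM (K := ℚ) hM
  have hd := Pool.Agent.Y665.XF.delta_ne (K := ℚ) hM
  have e1 : Pool.Agent.Y665.XF.ED (((d : ℕ) : ℤ) : ℚ) =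
      gc (13 * (d : ℤ)) (128 * (d : ℤ) ^ 2) ℚ := by
    unfold Pool.Agent.Y665.XF.ED gc
    push_cast
    rfl
  rw [e1] at hvr
  exact BndS.equiv (Pool.Agent.Y655.XT.isoVR hvr hd).sha.symm (bnd_of_two h1)

lemma fin_cu {F : Type} [Field F] [NumberField F] (hr : RR F 1 = 0) :
    Finite (cu F).toAffine.Point := by
  rw [← Pool.Agent.W2helper41.M.rank_RR] at hr
  have hfg := Pool.Agent.W2helper41.Q.fgE F
  have h1 : Module.finrank ℤ (Pool.Agent.Y682.XF.base E14 F).toAffine.Point = 0 := hr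
  rw [Module.finrank_eq_zero_iff_isTorsion] at h1
  have h2 := Module.finite_of_fg_torsion _ h1
  rw [cu_base] at h2
  exact h2

/-- **the number fields in `Om`** -/
theorem zero_om {T P : Finset ℕ} (hT : ∀ q ∈ T, Ine q) (hP : ∀ p ∈ P, Spl p)
    (hc : P.card ≤ 2) (hdet : (mat P (∏ q ∈ T, q)).det ≠ 0)
    (h9 : ∀ p ∈ P, p % 9 = 2 ∨ p % 9 = 4 ∨ p % 9 = 5 ∨ p % 9 = 7)
    (F : IntermediateField ℚ ℂ) [NumberField F] (hF : F ≤ Om ((∏ q ∈ T, q) * ∏ p ∈ P, p) P) :
    Abl F ∧ (∃ m, BndS 2 m (gc 13 128 F)) ∧ Finite (cu F).toAffine.Point := by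
  have habl : ∀ (G : IntermediateField ℚ ℂ) [NumberField G],
      G ≤ Om ((∏ q ∈ T, q) * ∏ p ∈ P, p) P → Abl G := by
    intro G _ hG
    obtain ⟨R, -, hR⟩ := Pool.Agent.W2helper41.Q.omega_all hT hP hc hdet h9 G hG
    exact hR.1
  refine ⟨habl F hF, ?_, ?_⟩
  · obtain ⟨A, n, hA, hFA⟩ := Pool.Agent.W2helper41.M.le_Om F hF
    obtain ⟨D, hD⟩ : ∃ D, D = (∏ q ∈ T, q) * ∏ p ∈ P, p := ⟨_, rfl⟩
    have hany := Pool.Agent.W2helper41.M.reg_any hT hP hc hdet A hA
    rw [← hD] at hany hFA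
    obtain ⟨S, hS⟩ : ∃ S, S = (insert D A).map (Nat.castEmbedding (R := ℤ)) := ⟨_, rfl⟩
    have hmq : mqN (insert D A) = mq S := by rw [hS]; exact Pool.Agent.W2helper41.Y.mq_nat _
    have hG := comp_nf S n
    have hGo : mq S ⊔ Lay (n + 1) ≤ Om ((∏ q ∈ T, q) * ∏ p ∈ P, p) P := by
      rw [← hmq, hD]
      exact mq_le_Om hA n
    rw [hmq] at hFA
    refine bnd_F n S ?_ (mq S ⊔ Lay (n + 1)) F rfl (habl _ hGo) hFA ?_
    · intro d hd
      rw [hS] at hd
      obtain ⟨k, hk, rfl⟩ := mem_map.1 hd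
      have hin : ∀ q : ℕ, Ine q → Gd (q : ℤ) := by
        intro q hq
        refine ⟨?_, fun p hp hpd => ?_⟩
        · have := hq.2.1
          rw [Int.odd_iff]
          omega
        · have h4 : p = q := (Nat.prime_dvd_prime_iff_eq hp hq.1).1 (Int.natCast_dvd_natCast.1 hpd)
          rw [h4]
          exact Or.inl hq
      rcases mem_insert.1 hk with rfl | hk
      · show Gd ((k : ℕ) : ℤ)
        rw [hD, Nat.cast_mul, Nat.cast_prod, Nat.cast_prod]
        refine Gd.mul (Gd.prod _ _ fun q hq => hin q (hT q hq)) (Gd.prod _ _ fun p hp => ?_)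
        have hp2 := (hP p hp).2.1
        refine ⟨?_, fun l hl hld => ?_⟩
        · rw [Int.odd_iff]
          omega
        · have h4 : l = p := (Nat.prime_dvd_prime_iff_eq hl (hP p hp).1).1
            (Int.natCast_dvd_natCast.1 hld)
          rw [h4]
          exact Or.inr (h9 p hp)
      · exact hin k (hA k hk).1
    · intro B hB hz
      rw [hS] at hB
      obtain ⟨B', hB', rfl⟩ := subset_map_iff.1 hB
      have e : ∏ d ∈ B'.map (Nat.castEmbedding (R := ℤ)), d = ((∏ q ∈ B', q : ℕ) : ℤ) := by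
        rw [prod_map, Nat.cast_prod]
        rfl
      rw [e]
      obtain ⟨d, g, hd, hg, hdg⟩ := hany B' hB'
      rw [hdg, Nat.cast_mul, Nat.cast_pow]
      have hd0 : ((d : ℕ) : ℤ) ≠ 0 := by
        have := hd.sqf.ne_zero
        exact_mod_cast this
      have hg0 : ((g : ℕ) : ℤ) ≠ 0 := by
        have := hg.ne'
        exact_mod_cast this
      exact ⟨0, bnd_sq hd0 hg0 (bnd_reg hd)⟩
  · obtain ⟨G, -, -, -, hr⟩ := Pool.Agent.W2helper41.M.omega_main hT hP hc hdet h9 F hF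
    exact fin_cu hr

/-! ## Curves over subfields -/

/-- the change of variables over `F` -/
lemma vr_desc {k F : IntermediateField ℚ ℂ} [NumberField k] [NumberField F] (hk : k ≤ F)
    (W : WeierstrassCurve k) (C : VariableChange ℂ) (hu : (C.u : ℂ) ∈ F) (hr : C.r ∈ F)
    (hs : C.s ∈ F) (ht : C.t ∈ F) (hC : C • (W.baseChange ℂ) = cu ℂ) (alg : Algebra k F)
    (halg : ∀ x : k, ((algebraMap k F x : F) : ℂ) = x) :
    ∃ u r s t : F, VR (W.baseChange F) (cu F) u r s t := by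
  have h1 := Pool.Agent.Y655.XT.vr_of_smul hC
  have h2 : ∀ x y : F, (x : ℂ) = y → x = y := fun x y h => Subtype.ext h
  have hmap : (W.baseChange F).map (algebraMap F ℂ) = W.baseChange ℂ := by
    show (W.map (algebraMap k F)).map (algebraMap F ℂ) = W.map (algebraMap k ℂ)
    rw [WeierstrassCurve.map_map]
    congr 1
    ext x
    exact halg x
  have hcu : (cu F).map (algebraMap F ℂ) = cu ℂ := by
    have e0 : algebraMap F ℂ 0 = 0 := map_zero _
    have e1 : algebraMap F ℂ 1 = 1 := map_one _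
    have e4 : algebraMap F ℂ 4 = 4 := map_ofNat _ 4
    have e6 : algebraMap F ℂ (-6) = -6 := by
      rw [map_neg]
      exact congrArg Neg.neg (map_ofNat (algebraMap F ℂ) 6)
    show (⟨algebraMap F ℂ 1, algebraMap F ℂ 0, algebraMap F ℂ 1, algebraMap F ℂ 4,
      algebraMap F ℂ (-6)⟩ : WeierstrassCurve ℂ) = ⟨1, 0, 1, 4, -6⟩
    rw [e0, e1, e4, e6]
  rw [← hmap, ← hcu] at h1
  refine ⟨⟨C.u, hu⟩, ⟨C.r, hr⟩, ⟨C.s, hs⟩, ⟨C.t, ht⟩, ?_⟩
  exact {
    u0 := fun h => C.u.ne_zero (congrArg (fun x : F => (x : ℂ)) h)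
    e1 := h2 _ _ h1.e1
    e2 := h2 _ _ h1.e2
    e3 := h2 _ _ h1.e3
    e4 := h2 _ _ h1.e4
    e6 := h2 _ _ h1.e6 }

/-- the curve `W` over `k` is isomorphic to `X_0(14)` over `U` -/
def Isom (U : IntermediateField ℚ ℂ) {k : IntermediateField ℚ ℂ} (W : WeierstrassCurve k) : Prop :=
  ∃ C : VariableChange ℂ, (C.u : ℂ) ∈ U ∧ C.r ∈ U ∧ C.s ∈ U ∧ C.t ∈ U ∧
    C • (W.baseChange ℂ) = cu ℂ

/-- **the regulators** -/
theorem reg_omega (F : IntermediateField ℚ ℂ) [NumberField F] (hF : Abl F)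
    (hB : ∃ m, BndS 2 m (gc 13 128 F)) (k : IntermediateField ℚ ℂ) [NumberField k] (hk : k ≤ F)
    (W : WeierstrassCurve k) (hW : Isom F W) : Reg W := by
  obtain ⟨C, hu, hr, hs, ht, hC⟩ := hW
  let alg : Algebra k F := (IntermediateField.inclusion hk).toRingHom.toAlgebra
  obtain ⟨u, r, s, t, h⟩ := vr_desc hk W C hu hr hs ht hC alg (fun x => rfl)
  have hgal : IsGalois k F := gal_top hF
  exact reg_down h (bnd_cu.1 hB)

/-- **both sides are zero** -/
theorem zero_omega (F : IntermediateField ℚ ℂ) [NumberField F] (hF : Abl F)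
    (hfin : Finite (cu F).toAffine.Point)
    (hB : ∃ m, BndS 2 m (gc 13 128 F)) (k : IntermediateField ℚ ℂ) [NumberField k] (hk : k ≤ F)
    (W : WeierstrassCurve k) (hW : Isom F W) : Zer W := by
  obtain ⟨C, hu, hr, hs, ht, hC⟩ := hW
  let alg : Algebra k F := (IntermediateField.inclusion hk).toRingHom.toAlgebra
  obtain ⟨u, r, s, t, h⟩ := vr_desc hk W C hu hr hs ht hC alg (fun x => rfl)
  have hgal : IsGalois k F := gal_top hF
  exact zero_down h hfin (bnd_cu.1 hB)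

/-- the field of definition of a change of variables -/
theorem field_def {U : IntermediateField ℚ ℂ} (hU : ∀ x ∈ U, IsIntegral ℚ x)
    (k : IntermediateField ℚ ℂ) [NumberField k] (hk : k ≤ U) (W : WeierstrassCurve k)
    (hW : Isom U W) : ∃ (F : IntermediateField ℚ ℂ) (_ : NumberField F), k ≤ F ∧ F ≤ U ∧ Isom F W := by
  obtain ⟨C, hu, hr, hs, ht, hC⟩ := hW
  have hsub : ({(C.u : ℂ), C.r, C.s, C.t} : Set ℂ) ⊆ U := by
    rintro z (rfl | rfl | rfl | rfl)
    · exact hu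
    · exact hr
    · exact hs
    · exact ht
  have f2 : FiniteDimensional ℚ (IntermediateField.adjoin ℚ ({(C.u : ℂ), C.r, C.s, C.t} : Set ℂ)) :=
    IntermediateField.finiteDimensional_adjoin fun z hz => hU z (hsub hz)
  have f0 : FiniteDimensional ℚ k := inferInstance
  have f3 : FiniteDimensional ℚ
      (k ⊔ IntermediateField.adjoin ℚ ({(C.u : ℂ), C.r, C.s, C.t} : Set ℂ) :
        IntermediateField ℚ ℂ) := IntermediateField.finiteDimensional_sup _ _
  have hle : IntermediateField.adjoin ℚ ({(C.u : ℂ), C.r, C.s, C.t} : Set ℂ) ≤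
      k ⊔ IntermediateField.adjoin ℚ ({(C.u : ℂ), C.r, C.s, C.t} : Set ℂ) := le_sup_right
  refine ⟨k ⊔ IntermediateField.adjoin ℚ ({(C.u : ℂ), C.r, C.s, C.t} : Set ℂ),
    { to_charZero := inferInstance, to_finiteDimensional := f3 }, le_sup_left,
    sup_le hk (IntermediateField.adjoin_le_iff.2 hsub), C, ?_, ?_, ?_, ?_, hC⟩
  · exact hle (IntermediateField.subset_adjoin ℚ _ (by simp))
  · exact hle (IntermediateField.subset_adjoin ℚ _ (by simp))
  · exact hle (IntermediateField.subset_adjoin ℚ _ (by simp))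
  · exact hle (IntermediateField.subset_adjoin ℚ _ (by simp))

lemma int_Om {D : ℕ} {P : Finset ℕ} : ∀ x ∈ Om D P, IsIntegral ℚ x := by
  intro x hx
  obtain ⟨A, n, -, h1⟩ := Pool.Agent.W2helper41.M.mem_Om hx
  have hmq : mqN (insert D A) = mq ((insert D A).map (Nat.castEmbedding (R := ℤ))) :=
    Pool.Agent.W2helper41.Y.mq_nat _
  rw [hmq] at h1
  have hG := comp_nf ((insert D A).map (Nat.castEmbedding (R := ℤ))) n
  have h2 : IsIntegral ℚ (⟨x, h1⟩ : (mq ((insert D A).map (Nat.castEmbedding (R := ℤ))) ⊔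
      Lay (n + 1) : IntermediateField ℚ ℂ)) := Algebra.IsIntegral.isIntegral _
  exact h2.map (IntermediateField.val _)

lemma int_OmC {C : ℕ → Prop} : ∀ x ∈ OmC C, IsIntegral ℚ x := by
  intro x hx
  obtain ⟨A, n, -, h1⟩ := Pool.Agent.W2helper41.Q.mem_OmC hx
  have hmq : mqN A = mq (A.map (Nat.castEmbedding (R := ℤ))) :=
    Pool.Agent.W2helper41.Y.mq_nat _
  rw [hmq] at h1
  have hG := comp_nf (A.map (Nat.castEmbedding (R := ℤ))) n
  have h2 : IsIntegral ℚ (⟨x, h1⟩ : (mq (A.map (Nat.castEmbedding (R := ℤ))) ⊔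
      Lay (n + 1) : IntermediateField ℚ ℂ)) := Algebra.IsIntegral.isIntegral _
  exact h2.map (IntermediateField.val _)

/-- **(1)** -/
theorem main_one {T P : Finset ℕ} (hT : ∀ q ∈ T, Ine q) (hP : ∀ p ∈ P, Spl p)
    (hc : P.card ≤ 2) (hdet : (mat P (∏ q ∈ T, q)).det ≠ 0)
    (h9 : ∀ p ∈ P, p % 9 = 2 ∨ p % 9 = 4 ∨ p % 9 = 5 ∨ p % 9 = 7)
    (k : IntermediateField ℚ ℂ) [NumberField k] (hk : k ≤ Om ((∏ q ∈ T, q) * ∏ p ∈ P, p) P)
    (W : WeierstrassCurve k) (hW : Isom (Om ((∏ q ∈ T, q) * ∏ p ∈ P, p) P) W) : Zer W := by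
  obtain ⟨F, _, hkF, hFU, hWF⟩ := field_def int_Om k hk W hW
  obtain ⟨h1, h2, h3⟩ := zero_om hT hP hc hdet h9 F hFU
  exact zero_omega F h1 h3 h2 k hkF W hWF

/-- **(2)** -/
theorem main_two (F : IntermediateField ℚ ℂ) [NumberField F] (hF : F ≤ OmC Adm) :
    (∃ m, BndS 2 m (cu F)) ↔
      ∀ A : Finset ℕ, (∀ q ∈ A, Adm q) → (∃ z ∈ F, z ^ 2 = ((∏ q ∈ A, q : ℕ) : ℂ)) →
      ∃ m, BndS 2 m (gc (13 * ((∏ q ∈ A, q : ℕ) : ℤ)) (128 * ((∏ q ∈ A, q : ℕ) : ℤ) ^ 2) ℚ) := by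
  rw [← bnd_cu]
  constructor
  · intro hB A hA hz
    obtain ⟨z, hz1, hz2⟩ := hz
    refine twist_down (abl_omega F hF) (D := ((∏ q ∈ A, q : ℕ) : ℤ)) ?_ (z := ⟨z, hz1⟩) ?_ hB
    · have : ∏ q ∈ A, q ≠ 0 := prod_ne_zero_iff.2 fun q hq => (hA q hq).1.ne_zero
      exact_mod_cast this
    · apply Subtype.ext
      show z ^ 2 = _
      rw [hz2, Int.cast_natCast]
      exact (map_natCast F.val _).symm
  · exact bnd_omega F hF

end Pool.Agent.W2helper41.R
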