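import Pool.Agent.W2helper41.X.Inz
import Pool.Agent.W2helper41.Y.Bas

/-!
# A bound for the 2-Selmer groups of the twists of `X_0(14)`
-/

set_option autoImplicit false
set_option linter.unusedSectionVars false
set_option linter.unusedVariables false

open NumberField IsDedekindDomain Finset

namespace Pool.Agent.W2helper41.R

open Pool.Agent.Y682
open Pool.Agent.TH841.NF.D (rk Sha)
open Pool.Agent.W2helper41.X

open scoped Classical

variable {R : Finset ℕ}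

/-- the primes are one modulo four and not seven -/
def Ok (R : Finset ℕ) : Prop := ∀ l ∈ R, l.Prime ∧ l % 4 = 1 ∧ l ≠ 7

/-- the primes with a root of the first polynomial -/
noncomputable def RA (R : Finset ℕ) : Finset ℕ := R.filter fun l => IsSquare (-7 : ZMod l)

/-- the primes with a root of the second polynomial -/
noncomputable def RB (R : Finset ℕ) : Finset ℕ := R.filter fun l => IsSquare (2 : ZMod l)

lemma two_ne_l {l : ℕ} [Fact l.Prime] (h4 : l % 4 = 1) : (2 : ZMod l) ≠ 0 := by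
  exact_mod_cast cast_ne (Fact.out : l.Prime) 2 Nat.prime_two (by rintro rfl; omega)

lemma seven_ne_l {l : ℕ} [Fact l.Prime] (h7 : l ≠ 7) : (7 : ZMod l) ≠ 0 := by
  exact_mod_cast cast_ne (Fact.out : l.Prime) 7 (by norm_num) h7

lemma no_one {l : ℕ} [Fact l.Prime] (h7 : l ≠ 7) (h : ¬ IsSquare (-7 : ZMod l)) (ρ : ZMod l) :
    ρ ^ 2 + 13 * ρ + 128 ≠ 0 := by
  intro hρ
  have h7' := seven_ne_l h7
  apply h
  refine ⟨(2 * ρ + 13) / 7, ?_⟩
  field_simp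
  linear_combination -4 * hρ

lemma no_two {l : ℕ} [Fact l.Prime] (h4 : l % 4 = 1) (h : ¬ IsSquare (2 : ZMod l)) (σ : ZMod l) :
    σ ^ 2 + (-26) * σ + (-343) ≠ 0 := by
  intro hσ
  have h2 := two_ne_l h4
  apply h
  refine ⟨(σ - 13) / 16, ?_⟩
  have h16 : (16 : ZMod l) ≠ 0 := by
    have : (16 : ZMod l) = 2 ^ 4 := by norm_num
    rw [this]
    exact pow_ne_zero 4 h2
  field_simp
  linear_combination -hσ

lemma prodR_four (hR : Ok R) : (∏ l ∈ R, l) % 4 = 1 := by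
  refine Finset.prod_induction _ (fun x : ℕ => x % 4 = 1) ?_ (by norm_num) ?_
  · intro a b ha hb
    rw [Nat.mul_mod, ha, hb]
  · intro q hq
    exact (hR q hq).2.1

lemma decR (hR : Ok R) {l : ℕ} (hl : l ∈ R) : ∃ D' : ℤ, ((∏ q ∈ R, q : ℕ) : ℤ) = l * D' ∧
    ∀ _ : Fact l.Prime, (D' : ZMod l) ≠ 0 := by
  refine ⟨((∏ q ∈ R.erase l, q : ℕ) : ℤ), ?_, ?_⟩
  · rw [← mul_prod_erase R _ hl]
    push_cast
    ring
  · intro hf
    push_cast
    refine prod_ne_zero_iff.2 fun q hq => ?_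
    rw [mem_erase] at hq
    exact cast_ne (hR l hl).1 q (hR q hq.2).1 (Ne.symm hq.1)

lemma goodR (hR : Ok R) {l : ℕ} (hl : l.Prime) (h1 : l ∉ R) :
    (((∏ q ∈ R, q : ℕ) : ℤ) : ZMod l) ≠ 0 := by
  have hf : Fact l.Prime := ⟨hl⟩
  push_cast
  refine prod_ne_zero_iff.2 fun q hq => ?_
  exact cast_ne hl q (hR q hq).1 fun h => h1 (h ▸ hq)

/-- the first Selmer group -/
theorem selA (hR : Ok R) {n : ℤ} (hn : Squarefree n) (hpos : 0 < n)
    (h : ∀ (p : ℕ) (_ : Fact p.Prime), Cnd p (13 * ((∏ q ∈ R, q : ℕ) : ℤ))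
      (128 * ((∏ q ∈ R, q : ℕ) : ℤ) ^ 2) n) :
    ∃ I ⊆ RA R, n = ∏ i ∈ I, (i : ℤ) ∨ n = 2 * ∏ i ∈ I, (i : ℤ) := by
  have hlp : ∀ l : ℕ, l.Prime → (l : ℤ) ∣ n → l = 2 ∨ l ∈ RA R := by
    intro l hl hln
    by_contra hne
    rw [not_or] at hne
    have hf : Fact l.Prime := ⟨hl⟩
    have h2 : (2 : ZMod l) ≠ 0 := by exact_mod_cast cast_ne hl 2 Nat.prime_two hne.1
    have h128 : ((128 : ℤ) : ZMod l) ≠ 0 := by
      have : ((128 : ℤ) : ZMod l) = 2 ^ 7 := by norm_num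
      rw [this]
      exact pow_ne_zero 7 h2
    by_cases hlR : l ∈ R
    · obtain ⟨D', hD', hD0⟩ := decR hR hlR
      have h3 := h l hf
      rw [hD'] at h3
      have h7 : ¬ IsSquare (-7 : ZMod l) := fun h7 => hne.2 (mem_filter.2 ⟨hlR, h7⟩)
      exact cnd_inert h128 (hD0 hf)
        (fun ρ hρ => no_one (hR l hlR).2.2 h7 ρ (by exact_mod_cast hρ)) hn h3 hln
    · refine cnd_good ?_ hn (h l hf) hln
      rw [Int.cast_mul, Int.cast_pow]
      exact mul_ne_zero h128 (pow_ne_zero 2 (goodR hR hl hlR))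
  obtain ⟨e, he, he2⟩ := split_n (P := RA R) (fun p hp => (hR p (mem_filter.1 hp).1).1) hn Nat.prime_two hlp
  refine ⟨(RA R).filter (fun p : ℕ => (p : ℤ) ∣ n), filter_subset _ _, ?_⟩
  have hIpos : 0 < ∏ i ∈ (RA R).filter (fun p : ℕ => (p : ℤ) ∣ n), (i : ℤ) := prod_pos fun i hi => by
    exact_mod_cast (hR i (mem_filter.1 (mem_filter.1 hi).1).1).1.pos
  have hepos : 0 < e := by
    rw [he] at hpos
    by_contra hc
    nlinarith
  have he12 : e = 1 ∨ e = 2 := by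
    rcases he2 with h1 | h1 <;> [left; right] <;> omega
  rcases he12 with rfl | rfl
  · left
    conv_lhs => rw [he]
    rw [one_mul]
  · right
    exact he

/-- the second Selmer group -/
theorem selB (hR : Ok R) {n : ℤ} (hn : Squarefree n) (h4 : n % 4 = 1)
    (h : ∀ (p : ℕ) (_ : Fact p.Prime), Cnd p (-26 * ((∏ q ∈ R, q : ℕ) : ℤ))
      (-343 * ((∏ q ∈ R, q : ℕ) : ℤ) ^ 2) n) :
    ∃ I ⊆ RB R, n = ∏ i ∈ I, (i : ℤ) ∨ n = -7 * ∏ i ∈ I, (i : ℤ) := by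
  have h343 : ∀ l : ℕ, l.Prime → l ≠ 7 → ((-343 : ℤ) : ZMod l) ≠ 0 := by
    intro l hl h7
    have hf : Fact l.Prime := ⟨hl⟩
    have h7' := seven_ne_l (l := l) h7
    have : ((-343 : ℤ) : ZMod l) = -(7 ^ 3) := by norm_num
    rw [this]
    exact neg_ne_zero.2 (pow_ne_zero 3 h7')
  have hlp : ∀ l : ℕ, l.Prime → (l : ℤ) ∣ n → l = 7 ∨ l ∈ RB R := by
    intro l hl hln
    by_contra hne
    rw [not_or] at hne
    have hf : Fact l.Prime := ⟨hl⟩
    by_cases hlR : l ∈ R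
    · obtain ⟨D', hD', hD0⟩ := decR hR hlR
      have h3 := h l hf
      rw [hD'] at h3
      have h7 : ¬ IsSquare (2 : ZMod l) := fun h7 => hne.2 (mem_filter.2 ⟨hlR, h7⟩)
      exact cnd_inert (h343 l hl hne.1) (hD0 hf)
        (fun ρ hρ => no_two (hR l hlR).2.1 h7 ρ (by exact_mod_cast hρ)) hn h3 hln
    · refine cnd_good ?_ hn (h l hf) hln
      rw [Int.cast_mul, Int.cast_pow]
      exact mul_ne_zero (h343 l hl hne.1) (pow_ne_zero 2 (goodR hR hl hlR))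
  obtain ⟨e, he, he2⟩ := split_n (P := RB R) (fun p hp => (hR p (mem_filter.1 hp).1).1) hn
    (by norm_num : Nat.Prime 7) hlp
  refine ⟨(RB R).filter (fun p : ℕ => (p : ℤ) ∣ n), filter_subset _ _, ?_⟩
  have hI4 : (∏ i ∈ (RB R).filter (fun p : ℕ => (p : ℤ) ∣ n), (i : ℤ)) % 4 = 1 := by
    refine Finset.prod_induction _ (fun x : ℤ => x % 4 = 1) ?_ (by norm_num) ?_
    · intro a b ha hb
      rw [Int.mul_emod, ha, hb]
      norm_num
    · intro i hi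
      have := (hR i (mem_filter.1 (mem_filter.1 hi).1).1).2.1
      omega
  have he4 : e % 4 = 1 := by
    rw [he, Int.mul_emod, hI4, mul_one, Int.emod_emod_of_dvd _ (dvd_refl 4)] at h4
    exact h4
  have he17 : e = 1 ∨ e = -7 := by
    rcases he2 with h1 | h1
    · left; omega
    · right; omega
  rcases he17 with rfl | rfl
  · left
    conv_lhs => rw [he]
    rw [one_mul]
  · right
    exact he

/-- a set of classes -/
noncomputable def cl (e : ℤ) (A : Finset ℕ) : Set (ℚˣ ⧸ Sq ℚ) :=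
  {x | ∃ b : ℚˣ, x = (b : ℚˣ ⧸ Sq ℚ) ∧ ∃ I ⊆ A, (b : ℚ) = ((∏ i ∈ I, (i : ℤ) : ℤ) : ℚ) ∨
    (b : ℚ) = ((e * ∏ i ∈ I, (i : ℤ) : ℤ) : ℚ)}

lemma cl_card (e : ℤ) (A : Finset ℕ) : (cl e A).Finite ∧ Nat.card (cl e A) ≤ 2 * 2 ^ A.card := by
  let f : Bool × Finset ℕ → ℚˣ ⧸ Sq ℚ := fun y =>
    if h : (((if y.1 then 1 else e) * ∏ i ∈ y.2, (i : ℤ) : ℤ) : ℚ) ≠ 0 then
      ((Units.mk0 _ h : ℚˣ) : ℚˣ ⧸ Sq ℚ) else 1
  obtain ⟨Y, hY⟩ : ∃ Y : Finset (Bool × Finset ℕ), Y = (univ : Finset Bool) ×ˢ A.powerset := ⟨_, rfl⟩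
  have hsub : cl e A ⊆ (Y.image f : Finset (ℚˣ ⧸ Sq ℚ)) := by
    rintro x ⟨b, rfl, I, hI, hb | hb⟩
    · rw [mem_coe, mem_image]
      refine ⟨(true, I), ?_, ?_⟩
      · rw [hY, mem_product]
        exact ⟨mem_univ _, mem_powerset.2 hI⟩
      · have h0 : (((if (true, I).1 then 1 else e) * ∏ i ∈ (true, I).2, (i : ℤ) : ℤ) : ℚ) ≠ 0 := by
          show (((if true = true then 1 else e) * ∏ i ∈ I, (i : ℤ) : ℤ) : ℚ) ≠ 0
          rw [if_pos rfl, one_mul, ← hb]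
          exact b.ne_zero
        show (if h : _ then _ else _) = _
        rw [dif_pos h0]
        congr 1
        apply Units.ext
        rw [Units.val_mk0, hb]
        show (((if true = true then 1 else e) * ∏ i ∈ I, (i : ℤ) : ℤ) : ℚ) = _
        rw [if_pos rfl, one_mul]
    · rw [mem_coe, mem_image]
      refine ⟨(false, I), ?_, ?_⟩
      · rw [hY, mem_product]
        exact ⟨mem_univ _, mem_powerset.2 hI⟩
      · have h0 : (((if (false, I).1 then 1 else e) * ∏ i ∈ (false, I).2, (i : ℤ) : ℤ) : ℚ) ≠ 0 := by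
          show (((if false = true then 1 else e) * ∏ i ∈ I, (i : ℤ) : ℤ) : ℚ) ≠ 0
          rw [if_neg Bool.false_ne_true, ← hb]
          exact b.ne_zero
        show (if h : _ then _ else _) = _
        rw [dif_pos h0]
        congr 1
        apply Units.ext
        rw [Units.val_mk0, hb]
        show (((if false = true then 1 else e) * ∏ i ∈ I, (i : ℤ) : ℤ) : ℚ) = _
        rw [if_neg Bool.false_ne_true]
  have hfin : (cl e A).Finite := (Y.image f).finite_toSet.subset hsub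
  refine ⟨hfin, ?_⟩
  rw [Nat.card_coe_set_eq]
  calc (cl e A).ncard ≤ ((Y.image f : Finset (ℚˣ ⧸ Sq ℚ)) : Set (ℚˣ ⧸ Sq ℚ)).ncard :=
        Set.ncard_le_ncard hsub (Y.image f).finite_toSet
    _ = (Y.image f).card := Set.ncard_coe_finset _
    _ ≤ Y.card := card_image_le
    _ = 2 * 2 ^ A.card := by
      rw [hY, card_product, card_powerset, card_univ, Fintype.card_bool]

/-- **the bound** -/
theorem sel_bound (hR : Ok R) :
    Finite {x : Sha (wc (13 * ((∏ q ∈ R, q : ℕ) : ℚ)) (128 * ((∏ q ∈ R, q : ℕ) : ℚ) ^ 2)) //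
      2 • x = 0} ∧
    2 ^ Module.finrank ℤ (MP (wc (13 * ((∏ q ∈ R, q : ℕ) : ℚ)) (128 * ((∏ q ∈ R, q : ℕ) : ℚ) ^ 2))) *
      Nat.card {x : Sha (wc (13 * ((∏ q ∈ R, q : ℕ) : ℚ)) (128 * ((∏ q ∈ R, q : ℕ) : ℚ) ^ 2)) //
        2 • x = 0} ≤ 2 ^ ((RA R).card + (RB R).card) := by
  have hmod := prodR_four hR
  set D : ℕ := ∏ q ∈ R, q with hDd
  have hD0 : D ≠ 0 := by omega
  have hDQ : (D : ℚ) ≠ 0 := by exact_mod_cast hD0
  obtain ⟨k, hk⟩ : ∃ k : ℤ, (D : ℤ) = 4 * k + 1 := ⟨(D : ℤ) / 4, by omega⟩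
  have eA : (13 * (D : ℚ)) = ((13 * (D : ℤ) : ℤ) : ℚ) := by push_cast; ring
  have eB : (128 * (D : ℚ) ^ 2) = ((128 * (D : ℤ) ^ 2 : ℤ) : ℚ) := by push_cast; ring
  have hIs : IsT (wc (13 * (D : ℚ)) (128 * (D : ℚ) ^ 2)) (13 * (D : ℚ))
      (128 * (D : ℚ) ^ 2) := by
    refine wc_isT (mul_ne_zero (by norm_num) (pow_ne_zero 2 hDQ)) ?_
    have h1 : (13 * (D : ℚ)) ^ 2 - 4 * (128 * (D : ℚ) ^ 2) = -343 * (D : ℚ) ^ 2 := by ring
    rw [h1]
    exact mul_ne_zero (by norm_num) (pow_ne_zero 2 hDQ)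
  obtain ⟨hfU, hcU⟩ := cl_card 2 (RA R)
  obtain ⟨hfV, hcV⟩ := cl_card (-7) (RB R)
  have hfU' : Finite (cl 2 (RA R)) := hfU.to_subtype
  have hfV' : Finite (cl (-7) (RB R)) := hfV.to_subtype
  -- the class of a squarefree integer
  have hcls : ∀ (b : ℚˣ) (n : ℤ) (w : ℚ), w ≠ 0 → (b : ℚ) = n * w ^ 2 → ∀ (e : ℤ) (A : Finset ℕ),
      (∃ I ⊆ A, n = ∏ i ∈ I, (i : ℤ) ∨ n = e * ∏ i ∈ I, (i : ℤ)) → (b : ℚˣ ⧸ Sq ℚ) ∈ cl e A := by
    intro b n w hw hx e A ⟨I, hI, hn⟩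
    have hn0 : (n : ℚ) ≠ 0 := by
      intro h0
      have h1 := b.ne_zero
      rw [hx, h0, zero_mul] at h1
      exact h1 rfl
    refine ⟨Units.mk0 (n : ℚ) hn0, cls_eq hw hx (by rw [Units.val_mk0]), I, hI, ?_⟩
    rw [Units.val_mk0]
    rcases hn with h | h
    · left; rw [h]
    · right; rw [h]
  have H1 : ∀ b : ℚˣ, LL1 (13 * (D : ℚ)) (128 * (D : ℚ) ^ 2) (b : ℚ) →
      (b : ℚˣ ⧸ Sq ℚ) ∈ cl 2 (RA R) := by
    intro b hb
    obtain ⟨n, w, hn, hw, hx⟩ := exists_sqf b b.ne_zero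
    have hpos : 0 < n := by
      have h1 := pos_b1 hb.2 (algebraMap ℚ ℝ) (by
        rw [map_mul, map_pow]
        have h2 : (0 : ℝ) < algebraMap ℚ ℝ (D : ℚ) := by
          rw [map_natCast]
          exact_mod_cast Nat.pos_of_ne_zero hD0
        have h3 : (0 : ℝ) < algebraMap ℚ ℝ 128 := by rw [map_ofNat]; norm_num
        positivity) (Or.inr (by
        rw [map_mul, map_mul, map_pow, map_ofNat, map_ofNat, map_natCast]
        have h2 : (0 : ℝ) < (D : ℝ) ^ 2 := by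
          have : (0 : ℝ) < (D : ℝ) := by exact_mod_cast Nat.pos_of_ne_zero hD0
          positivity
        nlinarith))
      have h2 : (0 : ℝ) < ((b : ℚ) : ℝ) := h1
      have h3 : (0 : ℚ) < (b : ℚ) := by exact_mod_cast h2
      rw [hx] at h3
      have h4 : (0 : ℚ) < w ^ 2 := by positivity
      have h5 : (0 : ℚ) < (n : ℚ) := by
        by_contra hc
        nlinarith
      exact_mod_cast h5
    refine hcls b n w hw hx 2 (RA R) (selA hR hn hpos (fun p hp => ?_))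
    obtain ⟨v, ⟨φ⟩⟩ := exists_hom p
    obtain ⟨z, m, hz, hzm, hm⟩ := hb.1 v
    refine cnd_of φ hw hx hz hzm ?_
    rw [← hDd, ← eA, ← eB]
    exact hm
  have H2 : ∀ b : ℚˣ, LL2 (13 * (D : ℚ)) (128 * (D : ℚ) ^ 2) (b : ℚ) →
      (b : ℚˣ ⧸ Sq ℚ) ∈ cl (-7) (RB R) := by
    intro b hb
    obtain ⟨n, w, hn, hw, hx⟩ := exists_sqf b b.ne_zero
    obtain ⟨v2, hv2⟩ := Y500.XD.place 2 Nat.prime_two
    have hv2m : ((2 : ℕ) : 𝓞 ℚ) ∈ v2.asIdeal := (hv2 v2).2 rfl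
    have hn4 : n % 4 = 1 := by
      have h1 : UnrC (v2.valuation ℚ) (b : ℚ) := by
        refine unr_b2 v2 (hb.1 v2) (C := ((8 * (D : ℤ) ^ 2 : ℤ) : ℚ)) (s := ((1 : ℤ) : ℚ))
          (u := ((13 * k + 3 : ℤ) : ℚ)) ?_ (val_int v2 _) (val_int v2 _) ?_ (val_int v2 _) ?_
        · have h2 : ((D : ℕ) : ℚ) = 4 * (k : ℚ) + 1 := by exact_mod_cast hk
          rw [h2]
          push_cast
          ring
        · push_cast
          ring
        · have h2 : (13 * (D : ℚ)) ^ 2 - 4 * (128 * (D : ℚ) ^ 2) =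
              ((-343 * (D : ℤ) ^ 2 : ℤ) : ℚ) := by push_cast; ring
          rw [h2]
          refine val_int_one Nat.prime_two hv2m ?_
          rw [hk]
          intro h3
          have h4 : (-343 * (4 * k + 1) ^ 2 : ℤ) = 2 * (-343 * (8 * k ^ 2 + 4 * k) - 172) + 1 := by
            ring
          rw [h4] at h3
          omega
      obtain ⟨t, s, u, ht, e, e1, hs, hu⟩ := h1
      refine unr_int hv2m hn ⟨w * t, s, u, mul_ne_zero hw ht, ?_, ?_, hs, hu⟩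
      · rw [← e, hx]; ring
      · rw [← e1, hx]
        congr 1
        ring
    refine hcls b n w hw hx (-7) (RB R) (selB hR hn hn4 (fun p hp => ?_))
    obtain ⟨v, ⟨φ⟩⟩ := exists_hom p
    obtain ⟨z, m, hz, hzm, hm⟩ := hb.1 v
    refine cnd_of φ hw hx hz hzm ?_
    rw [← hDd]
    have e1 : (((-26 * (D : ℤ) : ℤ)) : ℚ) = -2 * (13 * (D : ℚ)) := by push_cast; ring
    have e2 : (((-343 * (D : ℤ) ^ 2 : ℤ)) : ℚ) = (13 * (D : ℚ)) ^ 2 - 4 * (128 * (D : ℚ) ^ 2) := by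
      push_cast; ring
    rw [e1, e2]
    rcases hm with hm | hm | ⟨hm, y, hy⟩
    · exact Or.inl hm
    · right; left
      rw [hm, map_sub, map_pow, map_mul (algebraMap ℚ _) 4, map_ofNat]
    · right; right
      refine ⟨hm, y, ?_⟩
      rw [hy, map_sub, map_pow, map_mul (algebraMap ℚ _) 4, map_mul (algebraMap ℚ _) (-2),
        map_ofNat, map_neg, map_ofNat]
      ring
  obtain ⟨hf, hc⟩ := Zc_card hIs (U := cl 2 (RA R)) (V := cl (-7) (RB R))
    ⟨1, rfl, ∅, empty_subset _, Or.inl (by simp)⟩ H1 H2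
  obtain ⟨hf', hl⟩ := Zc_lower hIs
  refine ⟨hf', ?_⟩
  have hUV : Nat.card (cl 2 (RA R)) * Nat.card (cl (-7) (RB R)) ≤
      2 * 2 ^ (RA R).card * (2 * 2 ^ (RB R).card) := Nat.mul_le_mul hcU hcV
  have h1 := hl.trans (hc.trans hUV)
  rw [pow_add]
  nlinarith

end Pool.Agent.W2helper41.R
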