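import Pool.Agent.W2helper41.R.DcpC
import Pool.Agent.W2helper41.R.Shb
import Pool.Agent.W2helper41.R.Kon
import Pool.Agent.W2helper41.Q.Omq
import Pool.Agent.Y655.XT.Shavc

/-!
# The 2-primary part of `Ш` over the number fields in the infinite extension
-/

set_option autoImplicit false
set_option linter.unusedSectionVars false
set_option linter.unusedVariables false

open Finset NumberField WeierstrassCurve

namespace Pool.Agent.W2helper41.R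

open scoped Classical

open Pool.Agent.Y682.XD (mq)

open Pool.Agent.Y682 (gc NCl)

open Pool.Agent.Y700 (VR)

open Pool.Agent.W2helper41.X (Ine)

open Pool.Agent.W2helper41.M (Lay Lay_le Lay_odd)

open Pool.Agent.TH841.NF.D (Sha)

/-- the condition on the prime divisors -/
def Gd (d : ℤ) : Prop := Odd d ∧ ∀ p : ℕ, p.Prime → (p : ℤ) ∣ d →
  Ine p ∨ p % 9 = 2 ∨ p % 9 = 4 ∨ p % 9 = 5 ∨ p % 9 = 7

lemma Gd.mul {a b : ℤ} (ha : Gd a) (hb : Gd b) : Gd (a * b) := by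
  refine ⟨ha.1.mul hb.1, fun p hp hpd => ?_⟩
  rcases (Nat.prime_iff_prime_int.1 hp).dvd_or_dvd hpd with h | h
  · exact ha.2 p hp h
  · exact hb.2 p hp h

lemma Gd.one : Gd 1 := by
  refine ⟨odd_one, fun p hp h1 => ?_⟩
  exfalso
  have h3 : (p : ℤ) ≤ 1 := Int.le_of_dvd one_pos h1
  have := hp.two_le
  omega

lemma Gd.prod {ι : Type} (s : Finset ι) (f : ι → ℤ) (h : ∀ i ∈ s, Gd (f i)) : Gd (∏ i ∈ s, f i) :=
  Finset.prod_induction f Gd (fun _ _ => Gd.mul) Gd.one h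

lemma Gd.ne {a : ℤ} (ha : Gd a) : a ≠ 0 := by
  rintro rfl
  exact absurd ha.1 (by decide)

/-- the groups -/
def PC (D : ℤ) (K : Type) [Field K] [NumberField K] : Prop :=
  Nonempty (AddCommGroup.primaryComponent (Sha (gc (13 * D) (128 * D ^ 2) K)) 2 ≃+
    AddCommGroup.primaryComponent (Sha (gc (13 * D) (128 * D ^ 2) ℚ)) 2)

/-- **the subfields of the layers** -/
theorem layK (n : ℕ) (K : IntermediateField ℚ ℂ) [NumberField K] (hK : K ≤ Lay (n + 1)) :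
    ∃ (K₁ : Type) (_ : Field K₁) (_ : NumberField K₁), Nonempty (K ≃+* K₁) ∧
      ∀ D : ℤ, Gd D → PC D K₁ := by
  obtain ⟨q, hq⟩ : ∃ q : ℕ, q = 3 ^ (n + 1) := ⟨_, rfl⟩
  have hz : NeZero q := ⟨by rw [hq]; positivity⟩
  have hqp : IsPrimePow q := by
    rw [hq]
    exact Nat.prime_three.isPrimePow.pow (Nat.succ_ne_zero n)
  have hco : q.Coprime 14 := by
    rw [hq]
    exact Nat.Coprime.pow_left _ (by norm_num)
  have hfd := (Lay_odd n).1
  have hodd : Odd (Module.finrank ℚ K) :=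
    Odd.of_dvd_nat (Lay_odd n).2 (IntermediateField.finrank_dvd_of_le_right hK)
  have hKq : K ≤ IntermediateField.adjoin ℚ {z : ℂ | z ^ q = 1} := by
    rw [hq]
    exact hK.trans (Lay_le (n + 1))
  have hc1 : IsCyclotomicExtension {q} ℚ (CyclotomicField q ℚ) :=
    CyclotomicField.isCyclotomicExtension q ℚ
  obtain ⟨φ, ι, K₁, F₁, hK₁, -, -⟩ := Pool.Agent.Y682.XD.embz q q dvd_rfl
    (CyclotomicField q ℚ) (CyclotomicField q ℚ) K
    (IntermediateField.adjoin ℚ {z : ℂ | ∃ d ∈ (∅ : Set ℤ), z ^ 2 = (d : ℂ)}) hKq ∅ (by simp) rfl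
  let eK : K₁ ≃+* K := ((IntermediateField.equivMap K₁ (φ.comp ι)).trans
    (IntermediateField.equivOfEq hK₁)).toRingEquiv
  have hrk : Module.finrank ℚ K₁ = Module.finrank ℚ K :=
    ((IntermediateField.equivMap K₁ (φ.comp ι)).trans
      (IntermediateField.equivOfEq hK₁)).toLinearEquiv.finrank_eq
  have hodd1 : Odd (Module.finrank ℚ K₁) := by rw [hrk]; exact hodd
  have key : ∀ (q' : ℕ) [NeZero q'] (M : Type) [Field M] [NumberField M]
      [IsCyclotomicExtension {q'} ℚ M] (n : ℕ), q' = 3 ^ (n + 1) →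
      ∀ (K' : IntermediateField ℚ M), Odd (Module.finrank ℚ K') →
      ((Ideal.span {((2 : ℕ) : 𝓞 K')}).IsPrime ∧
      (Ideal.span {((7 : ℕ) : 𝓞 K')}).IsPrime ∧ Odd (Nat.card (NCl K'))) ∧
      ∀ p : ℕ, p.Prime → p % 9 = 2 ∨ p % 9 = 4 ∨ p % 9 = 5 ∨ p % 9 = 7 →
        (Ideal.span {((p : ℕ) : 𝓞 K')}).IsPrime := by
    intro q' _ M _ _ _ n hn K' hodd'
    subst hn
    exact ⟨Pool.Agent.Y682.XD.three_hyp n M K' hodd', fun p hp h9 =>
      Pool.Agent.Y682.YQ.inert9 n M K' hodd' hp h9⟩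
  obtain ⟨⟨h2, h7, hN⟩, h9⟩ := key q (CyclotomicField q ℚ) n hq K₁ hodd1
  have hre : Pool.Agent.Y682.XT.IsRe q (CyclotomicField q ℚ) K₁ := Pool.Agent.Y682.XT.re_of_odd hodd1
  have hreal : ∀ w : InfinitePlace K₁, w.IsReal := by
    obtain ⟨φ', -⟩ := Pool.Agent.Y682.XT.exists_phi q (CyclotomicField q ℚ)
    exact Pool.Agent.Y682.XT.real_place (φ := φ') hre
  refine ⟨K₁, inferInstance, inferInstance, ⟨eK.symm⟩, fun D hD => ?_⟩
  have hCnd : Pool.Agent.W2helper41.L.Cnd q K₁ D := by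
    intro p hp hpd
    have h10 := hD.2 p hp hpd
    refine ⟨?_, h10.imp_right fun h => h9 p hp h⟩
    intro h3
    rw [hq] at h3
    have h4 := (Nat.prime_dvd_prime_iff_eq hp Nat.prime_three).1 (hp.dvd_of_dvd_pow h3)
    rcases h10 with h5 | h5
    · have := h5.2.1
      omega
    · omega
  obtain ⟨-, ⟨e1⟩⟩ := Pool.Agent.W2helper41.L.stabT (q := q) hreal hN hodd1 h2 h7 hD.1 hCnd
  obtain ⟨-, ⟨e2⟩⟩ := Pool.Agent.Y682.XF.stabD (K := ℚ) (fun w => IsTotallyReal.isReal w)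
    Pool.Agent.Y682.XF.ncl_Q (by rw [Module.finrank_self]; exact odd_one)
    (Pool.Agent.Y682.XF.prime_Q Nat.prime_two)
    (Pool.Agent.Y682.XF.prime_Q (by norm_num)) hD.1 (fun p hp _ => Pool.Agent.Y682.XF.prime_Q hp)
  exact ⟨e1.trans e2.symm⟩

/-! ## Bounded exponents -/

lemma mem_pc {A : Type} [AddCommGroup A] {x : A} {k : ℕ} (h : (2 ^ k : ℕ) • x = 0) :
    x ∈ AddCommGroup.primaryComponent A 2 := ⟨k, h⟩

lemma pc_pow {A : Type} [AddCommGroup A] (x : AddCommGroup.primaryComponent A 2) :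
    ∃ k : ℕ, (2 ^ k : ℕ) • (x : A) = 0 := x.2

/-- transport -/
lemma bnd_pc {A B : Type} [AddCommGroup A] [AddCommGroup B]
    (e : AddCommGroup.primaryComponent A 2 ≃+ AddCommGroup.primaryComponent B 2) {m : ℕ}
    (h : ∀ (k : ℕ) (x : B), (2 ^ k : ℕ) • x = 0 → (2 ^ m : ℕ) • x = 0) (k : ℕ) (x : A)
    (hx : (2 ^ k : ℕ) • x = 0) : (2 ^ m : ℕ) • x = 0 := by
  obtain ⟨x', hx'⟩ : ∃ x' : AddCommGroup.primaryComponent A 2, x'.1 = x := ⟨⟨x, mem_pc hx⟩, rfl⟩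
  obtain ⟨j, hj⟩ := pc_pow (e x')
  have h1 := h j _ hj
  have h2 : (2 ^ m : ℕ) • e x' = 0 := Subtype.ext h1
  rw [← map_nsmul, map_eq_zero_iff e e.injective] at h2
  have h3 := congrArg Subtype.val h2
  rw [← hx']
  exact h3

lemma BndS.mono {F : Type} [Field F] [NumberField F] {W : WeierstrassCurve F} {p m m' : ℕ}
    (h : BndS p m W) (hm : m ≤ m') : BndS p m' W := by
  intro k x hx
  obtain ⟨c, rfl⟩ := Nat.exists_eq_add_of_le hm
  rw [pow_add, mul_comm, mul_smul, h k x hx, smul_zero]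

lemma BndS.equiv {F : Type} [Field F] [NumberField F] {W W' : WeierstrassCurve F} {p m : ℕ}
    (e : Sha W ≃+ Sha W') (h : BndS p m W') : BndS p m W := by
  intro k x hx
  apply e.injective
  rw [map_nsmul, map_zero]
  refine h k _ ?_
  rw [← map_nsmul, hx, map_zero]

lemma gc_delta {k : Type} [Field k] [CharZero k] {D : ℤ} (hD : D ≠ 0) :
    (gc (13 * D) (128 * D ^ 2) k).Δ ≠ 0 := by
  have hD' : (D : k) ≠ 0 := by exact_mod_cast hD
  have e : (gc (13 * D) (128 * D ^ 2) k).Δ = -(2 ^ 18 * 7 ^ 3 : ℕ) * (D : k) ^ 6 := by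
    unfold gc WeierstrassCurve.Δ WeierstrassCurve.b₂ WeierstrassCurve.b₄ WeierstrassCurve.b₆
      WeierstrassCurve.b₈
    push_cast
    ring
  rw [e]
  exact mul_ne_zero (neg_ne_zero.2 (by norm_num)) (pow_ne_zero _ hD')

/-- squares in the twist -/
lemma bnd_sq {k : Type} [Field k] [NumberField k] {D g : ℤ} (hD : D ≠ 0) (hg : g ≠ 0) {m : ℕ}
    (h : BndS 2 m (gc (13 * D) (128 * D ^ 2) k)) :
    BndS 2 m (gc (13 * (D * g ^ 2)) (128 * (D * g ^ 2) ^ 2) k) := by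
  have hg' : (g : k) ≠ 0 := by exact_mod_cast hg
  have hvr : VR (gc (13 * (D * g ^ 2)) (128 * (D * g ^ 2) ^ 2) k) (gc (13 * D) (128 * D ^ 2) k)
      (g : k) 0 0 0 := by
    refine ⟨hg', ?_, ?_, ?_, ?_, ?_⟩ <;> simp only [gc] <;> push_cast <;> ring
  exact BndS.equiv (Pool.Agent.Y655.XT.isoVR hvr (gc_delta hD)).sha.symm h

/-! ## Products -/

lemma prod_two {S A B : Finset ℤ} (hA : A ⊆ S) (hB : B ⊆ S) (h0 : ∀ d ∈ S, d ≠ 0) :
    ∃ C ⊆ S, ∃ g : ℤ, g ≠ 0 ∧ (∏ d ∈ A, d) * ∏ d ∈ B, d = (∏ d ∈ C, d) * g ^ 2 := by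
  refine ⟨(A \ B) ∪ (B \ A), ?_, ∏ d ∈ A ∩ B, d, ?_, ?_⟩
  · exact union_subset (sdiff_subset.trans hA) (sdiff_subset.trans hB)
  · exact prod_ne_zero_iff.2 fun d hd => h0 d (hA (mem_inter.1 hd).1)
  · have h1 : Disjoint (A \ B) (B \ A) := disjoint_sdiff_sdiff
    rw [prod_union h1]
    have h2 : (∏ d ∈ A ∩ B, d) * ∏ d ∈ A \ B, d = ∏ d ∈ A, d := prod_inter_mul_prod_sdiff A B _
    have h3 : (∏ d ∈ B ∩ A, d) * ∏ d ∈ B \ A, d = ∏ d ∈ B, d := prod_inter_mul_prod_sdiff B A _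
    rw [← h2, ← h3, inter_comm B A]
    ring

lemma prod_many {S : Finset ℤ} (h0 : ∀ d ∈ S, d ≠ 0) {ι : Type} (f : ι → Finset ℤ)
    (hf : ∀ i, f i ⊆ S) (T : Finset ι) :
    ∃ C ⊆ S, ∃ g : ℤ, g ≠ 0 ∧ ∏ i ∈ T, ∏ d ∈ f i, d = (∏ d ∈ C, d) * g ^ 2 := by
  induction T using Finset.induction_on with
  | empty => exact ⟨∅, empty_subset _, 1, one_ne_zero, by simp⟩
  | insert a T haT ih =>
    obtain ⟨C, hC, g, hg, h1⟩ := ih
    obtain ⟨C', hC', g', hg', h2⟩ := prod_two (hf a) hC h0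
    refine ⟨C', hC', g' * g, mul_ne_zero hg' hg, ?_⟩
    rw [prod_insert haT, h1, ← mul_assoc, h2]
    ring

/-! ## The theorem -/

lemma gal_top {K F : Type} [Field K] [NumberField K] [Field F] [NumberField F] [Algebra K F]
    (h : Abl F) : IsGalois K F := by
  have h0 : IsGalois ℚ F := h.1
  have : IsScalarTower ℚ K F := IsScalarTower.of_algebraMap_eq fun x => by
    rw [eq_ratCast, eq_ratCast, map_ratCast]
  exact IsGalois.tower_top_of_isGalois ℚ K F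

/-- the exponent of the 2-primary part of `Ш` over `F` is bounded -/
theorem bnd_F (n : ℕ) (S : Finset ℤ) (hS : ∀ d ∈ S, Gd d) (G F : IntermediateField ℚ ℂ)
    [NumberField G] [NumberField F] (hG : G = mq S ⊔ Lay (n + 1)) (hab : Abl G) (hF : F ≤ G)
    (hyp : ∀ B ⊆ S, (∃ z ∈ F, z ^ 2 = ((∏ d ∈ B, d : ℤ) : ℂ)) →
      ∃ m, BndS 2 m (gc (13 * ∏ d ∈ B, d) (128 * (∏ d ∈ B, d) ^ 2) ℚ)) :
    ∃ m, BndS 2 m (gc 13 128 F) := by
  have hfdL := (Lay_odd n).1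
  have hnL : NumberField (Lay (n + 1)) := { to_charZero := inferInstance, to_finiteDimensional := hfdL }
  have hS0 : ∀ d ∈ S, d ≠ 0 := fun d hd => (hS d hd).ne
  have hfK : FiniteDimensional ℚ (F ⊓ Lay (n + 1) : IntermediateField ℚ ℂ) :=
    FiniteDimensional.of_injective
      (IntermediateField.inclusion (inf_le_right : F ⊓ Lay (n + 1) ≤ Lay (n + 1))).toLinearMap
      (IntermediateField.inclusion (inf_le_right : F ⊓ Lay (n + 1) ≤ Lay (n + 1))).injective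
  have hnK : NumberField (F ⊓ Lay (n + 1) : IntermediateField ℚ ℂ) :=
    { to_charZero := inferInstance, to_finiteDimensional := hfK }
  obtain ⟨K₁, _, _, ⟨e⟩, hPC⟩ := layK n (F ⊓ Lay (n + 1)) inf_le_right
  let alg : Algebra K₁ F := ((IntermediateField.inclusion
    (inf_le_left : F ⊓ Lay (n + 1) ≤ F)).toRingHom.comp (e.symm : K₁ →+* _)).toAlgebra
  have halg : ∀ y : K₁, ((algebraMap K₁ F y : F) : ℂ) = ((e.symm y : _) : ℂ) := fun y => rfl
  have hgal : IsGalois K₁ F := gal_top (hab.sub (IntermediateField.inclusion hF).toRingHom)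
  -- the square roots in `F`
  obtain ⟨Z, hZ⟩ : ∃ Z : Finset (Finset ℤ), ∀ T, T ∈ Z ↔ T ⊆ S ∧
      ∃ z ∈ F, z ^ 2 = ((∏ d ∈ T, d : ℤ) : ℂ) :=
    ⟨S.powerset.filter fun T => ∃ z ∈ F, z ^ 2 = ((∏ d ∈ T, d : ℤ) : ℂ), fun T => by
      rw [mem_filter, mem_powerset]⟩
  obtain ⟨N, f, hf⟩ : ∃ (N : ℕ) (f : Fin N → Finset ℤ), ∀ T, T ∈ Z ↔ ∃ i, f i = T := by
    refine ⟨Z.card, fun i => (Z.equivFin.symm i : Finset ℤ), fun T => ⟨fun h => ?_, ?_⟩⟩
    · refine ⟨Z.equivFin ⟨T, h⟩, ?_⟩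
      show ((Z.equivFin.symm (Z.equivFin ⟨T, h⟩) : Z) : Finset ℤ) = T
      rw [Equiv.symm_apply_apply]
    · rintro ⟨i, rfl⟩
      exact (Z.equivFin.symm i).2
  have hfZ : ∀ i, f i ∈ Z := fun i => (hf _).2 ⟨i, rfl⟩
  have hfS : ∀ i, f i ⊆ S := fun i => ((hZ _).1 (hfZ i)).1
  have hroot : ∀ i, ∃ x : F, x ^ 2 = ((∏ d ∈ f i, d : ℤ) : F) := by
    intro i
    obtain ⟨z, hz, hz2⟩ := ((hZ _).1 (hfZ i)).2
    refine ⟨⟨z, hz⟩, Subtype.ext ?_⟩
    show z ^ 2 = _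
    rw [hz2]
    exact (map_intCast F.val _).symm
  choose x hx using hroot
  -- a bound
  have hmB : ∀ B : Finset ℤ, ∃ m, B ∈ Z →
      BndS 2 m (gc (13 * ∏ d ∈ B, d) (128 * (∏ d ∈ B, d) ^ 2) ℚ) := by
    intro B
    by_cases hB : B ∈ Z
    · obtain ⟨m, hm⟩ := hyp B ((hZ B).1 hB).1 ((hZ B).1 hB).2
      exact ⟨m, fun _ => hm⟩
    · exact ⟨0, fun h => absurd h hB⟩
  choose mB hmB using hmB
  obtain ⟨M, hM⟩ : ∃ M : ℕ, ∀ B ∈ Z, mB B ≤ M :=
    ⟨∑ B ∈ Z, mB B, fun B hB => Finset.single_le_sum (f := mB) (fun _ _ => Nat.zero_le _) hB⟩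
  have hd0 : ∀ i, (∏ d ∈ f i, d) ≠ 0 := fun i =>
    prod_ne_zero_iff.2 fun d hd => hS0 d (hfS i hd)
  refine ⟨N + M, fun k y hy => ?_⟩
  have hgen : ∀ S' : Subfield F, (∀ k : K₁, algebraMap K₁ F k ∈ S') → (∀ i, x i ∈ S') →
      S' = ⊤ := by
    intro S' h1 h2
    let Mf : IntermediateField ℚ ℂ := (S'.map F.val.toRingHom).toIntermediateField (fun r => by
      rw [eq_ratCast]
      exact SubfieldClass.ratCast_mem _ r)
    have hle : F ≤ Mf := by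
      refine dcpC S hS0 (Lay (n + 1)) G F hG hab (Lay_odd n).2 hF Mf ?_ ?_
      · intro z hz hz2
        refine ⟨algebraMap K₁ F (e ⟨z, hz, hz2⟩), h1 _, ?_⟩
        show ((algebraMap K₁ F (e ⟨z, hz, hz2⟩) : F) : ℂ) = z
        rw [halg, RingEquiv.symm_apply_apply]
      · rintro z hz ⟨T, hT, hz2⟩
        obtain ⟨i, hi⟩ := (hf T).1 ((hZ T).2 ⟨hT, z, hz, hz2⟩)
        have h3 : ((x i : F) : ℂ) ^ 2 = ((∏ d ∈ T, d : ℤ) : ℂ) := by
          have h4 := congrArg F.val (hx i)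
          rw [map_pow, map_intCast, hi] at h4
          exact h4
        rcases sq_eq_sq_iff_eq_or_eq_neg.1 (hz2.trans h3.symm) with h | h
        · exact ⟨x i, h2 i, h.symm⟩
        · refine ⟨-x i, S'.neg_mem (h2 i), ?_⟩
          rw [h]
          rfl
    rw [eq_top_iff]
    intro z _
    obtain ⟨y', hy', hyz⟩ := hle z.2
    have h3 : y' = z := Subtype.ext hyz
    rw [← h3]
    exact hy'
  refine quadN (K := K₁) (F := F) (fun i => ∏ d ∈ f i, d) x hd0 hx hgen 13 128 M ?_ k y hy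
  intro T
  obtain ⟨C, hC, g, hg, hCg⟩ := prod_many hS0 f hfS T
  have hCZ : C ∈ Z := by
    refine (hZ C).2 ⟨hC, (∏ i ∈ T, ((x i : F) : ℂ)) / (g : ℂ), ?_, ?_⟩
    · exact div_mem (prod_mem fun i _ => (x i).2) (intCast_mem F g)
    · have hgc : (g : ℂ) ≠ 0 := by exact_mod_cast hg
      have h3 : ∀ i, ((x i : F) : ℂ) ^ 2 = ((∏ d ∈ f i, d : ℤ) : ℂ) := by
        intro i
        have h4 := congrArg F.val (hx i)
        rw [map_pow, map_intCast] at h4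
        exact h4
      rw [div_pow, ← prod_pow, prod_congr rfl fun i _ => h3 i, ← Int.cast_prod, hCg, Int.cast_mul,
        Int.cast_pow, mul_div_assoc, div_self (pow_ne_zero 2 hgc), mul_one]
  have hB1 : BndS 2 M (gc (13 * ∏ i ∈ T, ∏ d ∈ f i, d) (128 * (∏ i ∈ T, ∏ d ∈ f i, d) ^ 2) ℚ) := by
    rw [hCg]
    exact bnd_sq (prod_ne_zero_iff.2 fun d hd => hS0 d (hC hd)) hg ((hmB C hCZ).mono (hM C hCZ))
  obtain ⟨e2⟩ := hPC (∏ i ∈ T, ∏ d ∈ f i, d)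
    (Gd.prod _ _ fun i _ => Gd.prod _ _ fun d hd => hS d (hfS i hd))
  exact fun k y => bnd_pc e2 hB1 k y

end Pool.Agent.W2helper41.R
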