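import Pool.Agent.W2helper41.R.One
import Pool.Agent.W2helper41.R.Fin2

/-!
# Twists of rank one
-/

set_option autoImplicit false
set_option linter.unusedSectionVars false
set_option linter.unusedVariables false

open NumberField IsDedekindDomain Finset WeierstrassCurve

namespace Pool.Agent.W2helper41.R

open Pool.Agent.Y682 (wc MP gc)
open Pool.Agent.TH841.NF.D (Sha)
open Pool.Agent.Y665.XF (ED eqn negY_ED nonsingT ED_facts)

open scoped Classical

section
variable {K : Type} [Field K] [NumberField K] {D : K}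

/-- the abscissa of a double -/
lemma dbl_sq (hD : D ≠ 0) (Q : (ED D).toAffine.Point) {X Y : K} (h : (ED D).toAffine.Nonsingular X Y)
    (hQ : Q + Q = Affine.Point.some X Y h) : IsSquare X := by
  rcases Q with _ | ⟨x, y, hn⟩
  · have h0 : (0 : (ED D).toAffine.Point) + 0 = Affine.Point.some X Y h := hQ
    rw [add_zero] at h0
    exact absurd h0 (by simp)
  · by_cases hy : y = (ED D).toAffine.negY x y
    · rw [Affine.Point.add_self_of_Y_eq hy] at hQ
      exact absurd hQ (by simp)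
    · rw [Affine.Point.add_self_of_Y_ne hy, Affine.Point.some.injEq] at hQ
      have he := eqn.1 hn.1
      obtain ⟨hx, -⟩ := hQ
      rw [Affine.slope_of_Y_ne rfl hy, Affine.addX, negY_ED] at hx
      rw [negY_ED] at hy
      simp only [ED] at hx
      have hne : y ≠ 0 := by
        intro h0
        apply hy
        rw [h0, neg_zero]
      have hne' : y - -y ≠ 0 := by
        intro h0
        apply hne
        linear_combination (1 / 2) * h0
      refine ⟨(x ^ 2 - 128 * D ^ 2) / (2 * y), ?_⟩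
      rw [← hx]
      field_simp
      linear_combination (-16 * (13 * D + 2 * x)) * he

/-- the sum with the point of order two -/
lemma add_T (hD : D ≠ 0) {x y : K} (h : (ED D).toAffine.Nonsingular x y) (hx0 : x ≠ 0) :
    ∃ (Y : K) (h' : (ED D).toAffine.Nonsingular (128 * D ^ 2 / x) Y),
      (Affine.Point.some x y h : (ED D).toAffine.Point) + Affine.Point.some 0 0 (nonsingT hD) =
        Affine.Point.some (128 * D ^ 2 / x) Y h' := by
  have he := eqn.1 h.1
  have h1 : ¬ (x = 0 ∧ y = (ED D).toAffine.negY 0 0) := fun h => hx0 h.1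
  have h2 := Affine.Point.add_some (W := (ED D).toAffine) (h₁ := h) (h₂ := nonsingT hD) h1
  have h3 : (ED D).toAffine.addX x 0 ((ED D).toAffine.slope x 0 y 0) = 128 * D ^ 2 / x := by
    rw [Affine.slope_of_X_ne hx0, Affine.addX]
    simp only [ED]
    field_simp
    linear_combination x * he
  have h4 := Affine.nonsingular_add h (nonsingT hD) h1
  refine ⟨(ED D).toAffine.addY x 0 y ((ED D).toAffine.slope x 0 y 0), ?_, ?_⟩
  · rw [← h3]
    exact h4
  · rw [h2]
    congr 1

/-- a point of infinite order -/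
theorem rk_pos (hodd : Odd (Module.finrank ℚ K)) (hD : D ≠ 0) {x y : K} (he : y ^ 2 = x ^ 3 + 13 * D * x ^ 2 + 128 * D ^ 2 * x)
    (hx : ¬ IsSquare x) (hx2 : ¬ IsSquare (2 * x)) :
    1 ≤ Module.finrank ℤ (ED D).toAffine.Point := by
  have hx0 : x ≠ 0 := by
    rintro rfl
    exact hx ⟨0, by ring⟩
  have hfg : Module.Finite ℤ (ED D).toAffine.Point := Pool.Agent.Y682.fg_MP (Pool.Agent.Y665.XF.isT hD)
  obtain ⟨T', hT1, hT2, hT3, hT4⟩ := ED_facts (K := K) hodd hD
  obtain ⟨T, hT⟩ : ∃ T : (ED D).toAffine.Point, T = Affine.Point.some 0 0 (nonsingT hD) := ⟨_, rfl⟩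
  have hTT : T' = T := by
    have h1 : T + T = 0 := by
      rw [hT]
      exact Affine.Point.add_self_of_Y_eq (by rw [negY_ED]; norm_num)
    rcases hT3 T h1 with h2 | h2
    · rw [hT] at h2
      exact absurd h2 (by simp)
    · exact h2.symm
  subst hTT
  have hD2 : (128 : K) * D ^ 2 ≠ 0 := mul_ne_zero (by norm_num) (pow_ne_zero 2 hD)
  have hy0 : y ≠ 0 := by
    rintro rfl
    have h1 : x * (x ^ 2 + 13 * D * x + 128 * D ^ 2) = 0 := by linear_combination -he
    rcases mul_eq_zero.1 h1 with h2 | h2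
    · exact hx0 h2
    · refine absurd ?_ (Pool.Agent.Y496.XT.no_sqrt_neg hodd ((2 * x + 13 * D) / D))
      field_simp
      linear_combination 4 * h2
  have hns : (ED D).toAffine.Nonsingular x y := by
    rw [Affine.nonsingular_iff, eqn]
    refine ⟨he, Or.inr ?_⟩
    simp only [ED]
    intro h0
    apply hy0
    linear_combination (1 / 2) * h0
  obtain ⟨P, hP⟩ : ∃ P : (ED D).toAffine.Point, P = Affine.Point.some x y hns := ⟨_, rfl⟩
  have hP1 : ∀ Q : (ED D).toAffine.Point, Q + Q ≠ P := by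
    intro Q hQ
    rw [hP] at hQ
    exact hx (dbl_sq hD Q hns hQ)
  have hP2 : ∀ Q : (ED D).toAffine.Point, Q + Q ≠ P + T' := by
    intro Q hQ
    obtain ⟨Y, h', h1⟩ := add_T hD hns hx0
    rw [hP, hT, h1] at hQ
    obtain ⟨s, hs⟩ := dbl_sq hD Q h' hQ
    have hs0 : s ≠ 0 := by
      rintro rfl
      rw [mul_zero, div_eq_zero_iff] at hs
      rcases hs with h2 | h2
      · exact hD2 h2
      · exact hx0 h2
    apply hx2
    refine ⟨16 * D / s, ?_⟩
    rw [div_mul_div_comm, ← hs]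
    field_simp
    ring
  -- the number of the classes
  by_contra hcon
  have hr : Module.finrank ℤ (ED D).toAffine.Point = 0 := by omega
  have hq := Pool.Agent.TeamU.card_quot_two (ED D).toAffine.Point
  rw [hr, pow_zero, one_mul] at hq
  have hker : Nat.card (zsmulAddGroupHom (α := (ED D).toAffine.Point) 2).ker ≤ 2 := by
    have h1 : ((zsmulAddGroupHom (α := (ED D).toAffine.Point) 2).ker :
        Set (ED D).toAffine.Point) ⊆ {0, T'} := by
      intro Q hQ
      have h2 : (2 : ℤ) • Q = 0 := hQ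
      rw [two_zsmul] at h2
      exact hT3 Q h2
    calc Nat.card (zsmulAddGroupHom (α := (ED D).toAffine.Point) 2).ker
        = ((zsmulAddGroupHom (α := (ED D).toAffine.Point) 2).ker :
          Set (ED D).toAffine.Point).ncard := Nat.card_coe_set_eq _
      _ ≤ ({0, T'} : Set (ED D).toAffine.Point).ncard := Set.ncard_le_ncard h1 (Set.toFinite _)
      _ ≤ 2 := by
        refine (Set.ncard_insert_le 0 {T'}).trans ?_
        rw [Set.ncard_singleton]
  have hfinr : Finite (ED D).toAffine.Point := by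
    rw [Module.finrank_eq_zero_iff_isTorsion] at hr
    exact Module.finite_of_fg_torsion _ hr
  obtain ⟨N, hN⟩ : ∃ N : AddSubgroup (ED D).toAffine.Point,
      N = (zsmulAddGroupHom (α := (ED D).toAffine.Point) 2).range := ⟨_, rfl⟩
  rw [← hN] at hq
  have hmem : ∀ P : (ED D).toAffine.Point, P ∈ N → ∃ Q, Q + Q = P := by
    intro P hP
    rw [hN] at hP
    obtain ⟨Q, hQ⟩ := hP
    exact ⟨Q, by rw [← two_zsmul]; exact hQ⟩
  let f : Fin 3 → (ED D).toAffine.Point ⧸ N := ![0, QuotientAddGroup.mk P, QuotientAddGroup.mk T']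
  have hPN : P ∉ N := fun h => by
    obtain ⟨Q, hQ⟩ := hmem P h
    exact hP1 Q hQ
  have hTN : T' ∉ N := fun h => by
    obtain ⟨Q, hQ⟩ := hmem T' h
    exact hT4 Q hQ
  have hPTN : P + T' ∉ N := fun h => by
    obtain ⟨Q, hQ⟩ := hmem _ h
    exact hP2 Q hQ
  have hnT : -T' = T' := by
    rw [neg_eq_iff_add_eq_zero]
    exact hT2
  have h01 : (0 : (ED D).toAffine.Point ⧸ N) ≠ QuotientAddGroup.mk P := fun h =>
    hPN ((QuotientAddGroup.eq_zero_iff P).1 h.symm)
  have h02 : (0 : (ED D).toAffine.Point ⧸ N) ≠ QuotientAddGroup.mk T' := fun h =>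
    hTN ((QuotientAddGroup.eq_zero_iff T').1 h.symm)
  have h12 : (QuotientAddGroup.mk P : (ED D).toAffine.Point ⧸ N) ≠ QuotientAddGroup.mk T' := by
    intro h
    rw [QuotientAddGroup.eq] at h
    apply hPTN
    have h1 : P + T' = -(-P + T') := by
      rw [neg_add, neg_neg, hnT]
    rw [h1]
    exact N.neg_mem h
  have hf : Function.Injective f := by
    intro i j hij
    fin_cases i <;> fin_cases j
    · rfl
    · exact absurd hij h01
    · exact absurd hij h02
    · exact absurd hij.symm h01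
    · rfl
    · exact absurd hij h12
    · exact absurd hij.symm h02
    · exact absurd hij.symm h12
    · rfl
  have hc := Nat.card_le_card_of_injective f hf
  rw [Nat.card_eq_fintype_card, Fintype.card_fin] at hc
  omega

end

/-- `D` has one prime that is not inert, and it is half split -/
def One (R : Finset ℕ) : Prop := Ok R ∧ (RA R).card + (RB R).card = 1

lemma ED_wc (D : ℕ) : ED (D : ℚ) = wc (13 * (D : ℚ)) (128 * (D : ℚ) ^ 2) := rfl

lemma wc_gc (D : ℕ) : wc (13 * (D : ℚ)) (128 * (D : ℚ) ^ 2) =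
    gc (13 * (D : ℤ)) (128 * (D : ℤ) ^ 2) ℚ := by
  unfold wc gc
  push_cast
  rfl

/-- **rank one** -/
theorem one_case {R : Finset ℕ} (hR : One R)
    (hr : 1 ≤ Module.finrank ℤ (MP (gc (13 * ((∏ q ∈ R, q : ℕ) : ℤ))
      (128 * ((∏ q ∈ R, q : ℕ) : ℤ) ^ 2) ℚ))) :
    Module.finrank ℤ (MP (gc (13 * ((∏ q ∈ R, q : ℕ) : ℤ))
      (128 * ((∏ q ∈ R, q : ℕ) : ℤ) ^ 2) ℚ)) = 1 ∧
    BndS 2 0 (gc (13 * ((∏ q ∈ R, q : ℕ) : ℤ)) (128 * ((∏ q ∈ R, q : ℕ) : ℤ) ^ 2) ℚ) := by
  obtain ⟨h1, h2⟩ := sel_bound hR.1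
  rw [hR.2, wc_gc] at h2
  rw [wc_gc] at h1
  obtain ⟨W, hW⟩ : ∃ W, W = gc (13 * ((∏ q ∈ R, q : ℕ) : ℤ)) (128 * ((∏ q ∈ R, q : ℕ) : ℤ) ^ 2) ℚ :=
    ⟨_, rfl⟩
  rw [← hW] at h1 h2 hr ⊢
  obtain ⟨r, hr'⟩ : ∃ r, r = Module.finrank ℤ (MP W) := ⟨_, rfl⟩
  obtain ⟨X, hX⟩ : ∃ X, X = Nat.card {x : Sha W // 2 • x = 0} := ⟨_, rfl⟩
  have hX0 : 0 < X := by
    rw [hX]
    exact Nat.card_pos_iff.2 ⟨⟨⟨0, smul_zero 2⟩⟩, h1⟩
  rw [← hr'] at hr h2 ⊢
  rw [← hX] at h2
  have h2r : 2 ≤ 2 ^ r := by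
    calc 2 = 2 ^ 1 := by norm_num
      _ ≤ 2 ^ r := Nat.pow_le_pow_right (by norm_num) hr
  have hX1 : X = 1 := by nlinarith
  have hr1 : r = 1 := by
    rw [hX1, mul_one] at h2
    have h3 := (Nat.pow_le_pow_iff_right (by norm_num : 1 < 2)).1 h2
    omega
  refine ⟨hr1, bnd_of_two fun y hy => ?_⟩
  have h4 := (Nat.card_eq_one_iff_unique.1 (hX.symm.trans hX1)).1
  exact congrArg Subtype.val (h4.elim ⟨y, hy⟩ ⟨0, smul_zero 2⟩)

end Pool.Agent.W2helper41.R
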